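import Pool.Agent.Q14.ST.Mom

/-!
# Inseparable polynomials, blocks of coefficients, limits of the means
-/

set_option autoImplicit false

namespace Pool.Agent.Q14.ST

open Finset Polynomial

section

variable {p : ℕ} [Fact p.Prime]

lemma coeff_mpoly {d : ℕ} (c : Fin d → ZMod p) (i : Fin d) : (mpoly c).coeff i = c i := by
  rw [mpoly, coeff_add, coeff_X_pow, if_neg (by have := i.2; omega), zero_add, finsetSum_coeff]
  simp only [coeff_C_mul, coeff_X_pow]
  rw [sum_eq_single i]
  · simp
  · intro j _ hj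
    rw [if_neg (fun h => hj (Fin.ext h.symm)), mul_zero]
  · intro h
    exact absurd (mem_univ i) h

lemma monic_eq_mpoly {f : (ZMod p)[X]} (hf : f.Monic) :
    f = mpoly (d := f.natDegree) (fun i => f.coeff i) := by
  conv_lhs => rw [hf.as_sum]
  rw [mpoly, Fin.sum_univ_eq_sum_range (fun i => C (f.coeff i) * X ^ i) f.natDegree]

open Classical in
lemma insep_card (d : ℕ) :
    (univ.filter fun c : Fin d → ZMod p => ¬ (mpoly c).Separable).card * p ≤ d * p ^ d := by
  have hp0 : 0 < p := (Fact.out : p.Prime).pos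
  set Φ : (j : ℕ) → ((Fin j → ZMod p) × (Fin (d - 2 * j) → ZMod p)) → (Fin d → ZMod p) :=
    fun j x i => (mpoly x.1 * mpoly x.1 * mpoly x.2).coeff i with hΦ
  have hsub : (univ.filter fun c : Fin d → ZMod p => ¬ (mpoly c).Separable) ⊆
      (Icc 1 (d / 2)).biUnion fun j => (univ : Finset ((Fin j → ZMod p) ×
        (Fin (d - 2 * j) → ZMod p))).image (Φ j) := by
    intro c hc
    rw [mem_filter] at hc
    have h1 : ¬ Squarefree (mpoly c) := fun h => hc.2 (PerfectField.separable_iff_squarefree.2 h)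
    rw [Squarefree] at h1
    push Not at h1
    obtain ⟨x, hx1, hx2⟩ := h1
    have hc0 : mpoly c ≠ 0 := (mpoly_monic c).ne_zero
    have hx0 : x ≠ 0 := by
      rintro rfl
      rw [mul_zero, zero_dvd_iff] at hx1
      exact hc0 hx1
    have hlc : x.leadingCoeff ≠ 0 := leadingCoeff_ne_zero.2 hx0
    set u := C x.leadingCoeff⁻¹ * x with hu
    have hum : u.Monic := by
      rw [Monic, hu, leadingCoeff_mul, leadingCoeff_C, inv_mul_cancel₀ hlc]
    have hud : u.natDegree = x.natDegree := natDegree_C_mul (inv_ne_zero hlc)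
    have hu1 : 1 ≤ u.natDegree := by
      rw [hud]
      by_contra hlt
      have h0 : x.natDegree = 0 := by omega
      exact hx2 ((isUnit_iff_degree_eq_zero).2 (by
        rw [degree_eq_natDegree hx0, h0]
        rfl))
    have huf : u * u ∣ mpoly c := by
      have h2 : u * u = (C x.leadingCoeff⁻¹ * C x.leadingCoeff⁻¹) * (x * x) := by
        rw [hu]; ring
      rw [h2, ← C_mul]
      have h3 : IsUnit (C (x.leadingCoeff⁻¹ * x.leadingCoeff⁻¹) : (ZMod p)[X]) := by
        rw [isUnit_C]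
        exact (mul_ne_zero (inv_ne_zero hlc) (inv_ne_zero hlc)).isUnit
      exact (h3.mul_left_dvd).2 hx1
    obtain ⟨v, hv⟩ := huf
    have hvm : v.Monic := by
      have h2 := mpoly_monic c
      rw [hv] at h2
      exact (hum.mul hum).of_mul_monic_left h2
    have hdeg : d = u.natDegree + u.natDegree + v.natDegree := by
      have h2 := mpoly_natDegree c
      rw [hv, (hum.mul hum).natDegree_mul hvm, hum.natDegree_mul hum] at h2
      exact h2.symm
    rw [mem_biUnion]
    refine ⟨u.natDegree, ?_, ?_⟩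
    · rw [mem_Icc]
      omega
    · rw [mem_image]
      have hvd : d - 2 * u.natDegree = v.natDegree := by omega
      have hv2 : v = mpoly (d := d - 2 * u.natDegree) (fun i => v.coeff i) := by
        rw [hvd]
        exact monic_eq_mpoly hvm
      refine ⟨(fun i => u.coeff i, fun i => v.coeff i), mem_univ _, ?_⟩
      funext i
      rw [hΦ]
      simp only
      rw [← hv2, ← monic_eq_mpoly hum, ← hv, coeff_mpoly]
  have h1 := (card_le_card hsub).trans card_biUnion_le
  have h2 : ∀ j ∈ Icc 1 (d / 2), ((univ : Finset ((Fin j → ZMod p) ×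
      (Fin (d - 2 * j) → ZMod p))).image (Φ j)).card * p ≤ p ^ d := by
    intro j hj
    rw [mem_Icc] at hj
    have h3 : ((univ : Finset ((Fin j → ZMod p) ×
      (Fin (d - 2 * j) → ZMod p))).image (Φ j)).card ≤ p ^ (d - j) := by
      refine card_image_le.trans (le_of_eq ?_)
      rw [card_univ, Fintype.card_prod, Fintype.card_fun, Fintype.card_fun, ZMod.card,
        Fintype.card_fin, Fintype.card_fin, ← pow_add]
      congr 1
      omega
    calc _ ≤ p ^ (d - j) * p := Nat.mul_le_mul_right p h3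
      _ = p ^ (d - j + 1) := (pow_succ _ _).symm
      _ ≤ p ^ d := Nat.pow_le_pow_right hp0 (by omega)
  calc _ ≤ (∑ j ∈ Icc 1 (d / 2), ((univ : Finset ((Fin j → ZMod p) ×
      (Fin (d - 2 * j) → ZMod p))).image (Φ j)).card) * p := Nat.mul_le_mul_right p h1
    _ = ∑ j ∈ Icc 1 (d / 2), ((univ : Finset ((Fin j → ZMod p) ×
      (Fin (d - 2 * j) → ZMod p))).image (Φ j)).card * p := sum_mul _ _ _
    _ ≤ ∑ _j ∈ Icc 1 (d / 2), p ^ d := sum_le_sum h2
    _ = (d / 2) * p ^ d := by rw [sum_const, smul_eq_mul, Nat.card_Icc]; simp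
    _ ≤ d * p ^ d := Nat.mul_le_mul_right _ (Nat.div_le_self _ _)

/-- the normalised character sum -/
noncomputable def tt {d : ℕ} (c : Fin d → ZMod p) : ℝ := cs univ c / √(p : ℝ)

lemma weil {d : ℕ} (hd : Odd d) (hp : p ≠ 2) (c : Fin d → ZMod p) : |tt c| ≤ d := by
  have hp0 : (0 : ℝ) < p := by exact_mod_cast (Fact.out : p.Prime).pos
  have hs : 0 < √(p : ℝ) := Real.sqrt_pos.2 hp0
  have hp' : ringChar (ZMod p) ≠ 2 := by rwa [ZMod.ringChar_zmod_n]
  have hd1 : 1 ≤ d := hd.pos
  have h := Pool.Agent.H341R2.Sharp.weil_sharp_monic hp' (mpoly_monic c)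
    (by rw [mpoly_natDegree]; exact hd1) (by
      intro a h hh
      have h1 := mpoly_natDegree c
      have h0 : mpoly c ≠ 0 := (mpoly_monic c).ne_zero
      have ha : a ≠ 0 := by
        rintro rfl
        rw [C_0, zero_mul] at hh
        exact h0 hh
      rw [hh, natDegree_C_mul ha, natDegree_pow] at h1
      obtain ⟨i, hi⟩ := hd
      omega)
  rw [mpoly_natDegree, ZMod.card] at h
  simp only [eval_mpoly] at h
  rw [tt, abs_div, abs_of_pos hs, div_le_iff₀ hs]
  refine h.trans ?_
  exact mul_le_mul_of_nonneg_right (by linarith) hs.le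

end

section

variable {r : ℕ} {d : Fin r → ℕ}

/-- the `k`-th block of coefficients -/
def blk {R : Type} (k : Fin r) (c : (Σ k : Fin r, Fin (d k)) → R) : Fin (d k) → R := fun i => c ⟨k, i⟩

lemma card_sigma' : Fintype.card (Σ k : Fin r, Fin (d k)) = ∑ k, d k := by
  rw [Fintype.card_sigma]
  simp

lemma sum_blocks {p : ℕ} [NeZero p] (φ : (k : Fin r) → (Fin (d k) → ZMod p) → ℝ) :
    ∑ c : (Σ k : Fin r, Fin (d k)) → ZMod p, ∏ k, φ k (blk k c) = ∏ k, ∑ c, φ k c := by
  rw [Finset.prod_univ_sum, Fintype.piFinset_univ]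
  refine Fintype.sum_equiv (Equiv.piCurry (fun (k : Fin r) (_ : Fin (d k)) => ZMod p)) _ _ fun c => ?_
  rfl

lemma mean_blocks {p : ℕ} [NeZero p] (φ : (k : Fin r) → (Fin (d k) → ZMod p) → ℝ) :
    mean p (fun c : (Σ k : Fin r, Fin (d k)) → ZMod p => ∏ k, φ k (blk k c)) =
      ∏ k, mean p (φ k) := by
  rw [mean_eq, sum_blocks, card_sigma', ← prod_pow_eq_pow_sum, ← prod_div_distrib]
  refine prod_congr rfl fun k _ => ?_
  rw [mean_eq, Fintype.card_fin]

end

lemma mean_mono {ι : Type} [Fintype ι] [DecidableEq ι] {p : ℕ} [NeZero p] {F G : (ι → ZMod p) → ℝ}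
    (h : ∀ r, F r ≤ G r) : mean p F ≤ mean p G := by
  rw [mean_eq, mean_eq]
  refine div_le_div_of_nonneg_right (sum_le_sum fun r _ => h r) (by positivity)

lemma mean_sub {ι : Type} [Fintype ι] [DecidableEq ι] {p : ℕ} [NeZero p] (F G : (ι → ZMod p) → ℝ) :
    mean p (fun r => F r - G r) = mean p F - mean p G := by
  rw [mean_eq, mean_eq, mean_eq, sum_sub_distrib, sub_div]

lemma mean_abs {ι : Type} [Fintype ι] [DecidableEq ι] {p : ℕ} [NeZero p] (F : (ι → ZMod p) → ℝ) :
    |mean p F| ≤ mean p (fun r => |F r|) := by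
  rw [mean_eq, mean_eq, abs_div, abs_of_nonneg (by positivity : (0 : ℝ) ≤ (p : ℝ) ^ Fintype.card ι)]
  exact div_le_div_of_nonneg_right (abs_sum_le_sum_abs _ _) (by positivity)

lemma mean_const_mul {ι : Type} [Fintype ι] [DecidableEq ι] {p : ℕ} [NeZero p] (K : ℝ)
    (F : (ι → ZMod p) → ℝ) : mean p (fun r => K * F r) = K * mean p F := by
  rw [mean_eq, mean_eq, ← mul_sum, mul_div_assoc]

lemma mean_finset_sum {ι κ : Type} [Fintype ι] [DecidableEq ι] {p : ℕ} [NeZero p] (s : Finset κ)
    (F : κ → (ι → ZMod p) → ℝ) : mean p (fun r => ∑ k ∈ s, F k r) = ∑ k ∈ s, mean p (F k) := by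
  simp only [mean_eq]
  rw [sum_comm, sum_div]

section

variable {r : ℕ} {d : Fin r → ℕ}

open Classical in
/-- the indicator function of the inseparable `k`-th polynomials has a small mean -/
lemma mean_insep {p : ℕ} [Fact p.Prime] (k : Fin r) :
    mean p (fun c : (Σ k : Fin r, Fin (d k)) → ZMod p =>
      if (mpoly (blk k c)).Separable then (0 : ℝ) else 1) ≤ d k / p := by
  have hp0 : (0 : ℝ) < p := by exact_mod_cast (Fact.out : p.Prime).pos
  have h1 : (fun c : (Σ k : Fin r, Fin (d k)) → ZMod p =>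
      if (mpoly (blk k c)).Separable then (0 : ℝ) else 1) =
      fun c => ∏ k', (fun (k' : Fin r) (b : Fin (d k') → ZMod p) =>
        if k' = k then (if (mpoly b).Separable then (0 : ℝ) else 1) else 1) k' (blk k' c) := by
    funext c
    rw [prod_eq_single k]
    · simp
    · intro k' _ hk'
      simp [hk']
    · intro h
      exact absurd (mem_univ k) h
  rw [h1, mean_blocks (fun (k' : Fin r) (b : Fin (d k') → ZMod p) =>
        if k' = k then (if (mpoly b).Separable then (0 : ℝ) else 1) else 1), prod_eq_single k]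
  · simp only [if_true]
    rw [mean_eq, Fintype.card_fin]
    have h2 : ∑ c : Fin (d k) → ZMod p, (if (mpoly c).Separable then (0 : ℝ) else 1) =
        (((univ.filter fun c : Fin (d k) → ZMod p => ¬ (mpoly c).Separable).card : ℕ) : ℝ) := by
      rw [card_filter]
      push_cast
      refine sum_congr rfl fun c _ => ?_
      by_cases h : (mpoly c).Separable
      · rw [if_pos h, if_neg (not_not.2 h)]
      · rw [if_neg h, if_pos h]
    rw [h2, div_le_div_iff₀ (by positivity) hp0]
    exact_mod_cast insep_card (p := p) (d k)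
  · intro k' _ hk'
    simp only [if_neg hk']
    rw [mean_eq, sum_const, nsmul_eq_mul, card_univ, Fintype.card_fun, ZMod.card]
    push_cast
    have : (p : ℝ) ^ Fintype.card (Fin (d k')) ≠ 0 := by positivity
    rw [mul_one, div_self this]
  · intro h
    exact absurd (mem_univ k) h

open Classical in
/-- the product of powers of the normalised sums at the separable points, and zero elsewhere -/
noncomputable def G1 (m : Fin r → ℕ) (p : ℕ) (c : (Σ k : Fin r, Fin (d k)) → ZMod p) : ℝ :=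
  if h : p.Prime then (if p ≠ 2 ∧ ∀ k, (mpoly (blk k c)).Separable then
    haveI : Fact p.Prime := ⟨h⟩
    ∏ k, tt (blk k c) ^ m k else 0) else 0

lemma G1_bound (hd : ∀ k, Odd (d k)) (m : Fin r → ℕ) (p : ℕ)
    (c : (Σ k : Fin r, Fin (d k)) → ZMod p) : |G1 m p c| ≤ ∏ k, (d k : ℝ) ^ m k := by
  have h0 : (0 : ℝ) ≤ ∏ k, (d k : ℝ) ^ m k := prod_nonneg fun k _ => by positivity
  unfold G1
  split_ifs with h1 h2
  · haveI : Fact p.Prime := ⟨h1⟩
    rw [abs_prod]
    refine prod_le_prod (fun k _ => abs_nonneg _) fun k _ => ?_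
    rw [abs_pow]
    exact pow_le_pow_left₀ (abs_nonneg _) (weil (hd k) h2.1 _) _
  · simpa using h0
  · simpa using h0

open Filter Topology

lemma mean_tt {p : ℕ} [Fact p.Prime] (hp : p ≠ 2) {d l : ℕ} (hl : l ≤ d) :
    mean p (fun c : Fin d → ZMod p => tt c ^ l) = M (1 - 1 / p) p l / √(p : ℝ) ^ l := by
  have hp0 : (0 : ℝ) < p := by exact_mod_cast (Fact.out : p.Prime).pos
  rw [mean_eq, Fintype.card_fin]
  simp only [tt, div_pow]
  rw [← sum_div, moment hp l hl univ, card_univ, ZMod.card]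
  field_simp

/-- **The vertical moments.** -/
lemma mean_G1 (hd : ∀ k, Odd (d k)) (m : Fin r → ℕ) (hm : ∀ k, m k ≤ d k) {ε : ℝ} (hε : 0 < ε) :
    ∃ P₀ : ℕ, ∀ p : ℕ, p.Prime → P₀ ≤ p → |mean p (G1 (d := d) m p) - ∏ k, gm (m k)| ≤ ε := by
  set K : ℝ := ∏ k, (d k : ℝ) ^ m k with hK
  have hK0 : 0 ≤ K := prod_nonneg fun k _ => by positivity
  have h1 : Tendsto (fun p : ℕ => ∏ k, (M (1 - 1 / (p : ℝ)) p (m k) / √(p : ℝ) ^ m k)) atTop
      (𝓝 (∏ k, gm (m k))) := by
    refine tendsto_finsetProd _ fun k _ => ?_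
    have h2 : Tendsto (fun p : ℕ => (p, 1 - 1 / (p : ℝ))) atTop (atTop ×ˢ 𝓝 (1 : ℝ)) := by
      refine Tendsto.prodMk tendsto_id ?_
      have := (tendsto_const_nhds (x := (1 : ℝ))).sub tendsto_one_div_atTop_nhds_zero_nat
      simpa using this
    exact (M_tendsto (m k)).comp h2
  have h3 : Tendsto (fun p : ℕ => K * ∑ k, ((d k : ℝ) / p)) atTop (𝓝 0) := by
    have h4 : Tendsto (fun p : ℕ => K * ∑ k : Fin r, ((d k : ℝ) / p)) atTop (𝓝 (K * ∑ _k : Fin r, 0)) :=
      (tendsto_finsetSum _ fun k _ => tendsto_const_div_atTop_nhds_zero_nat _).const_mul _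
    simpa using h4
  obtain ⟨N₁, hN₁⟩ := Metric.tendsto_atTop.1 h1 (ε / 2) (by positivity)
  obtain ⟨N₂, hN₂⟩ := Metric.tendsto_atTop.1 h3 (ε / 2) (by positivity)
  refine ⟨max (max N₁ N₂) 3, fun p hp hpP => ?_⟩
  haveI : Fact p.Prime := ⟨hp⟩
  have hp2 : p ≠ 2 := by
    have := (le_max_right (max N₁ N₂) 3).trans hpP
    omega
  have h5 := hN₁ p ((le_max_left _ _).trans ((le_max_left _ _).trans hpP))
  have h6 := hN₂ p ((le_max_right _ _).trans ((le_max_left _ _).trans hpP))
  rw [Real.dist_eq] at h5 h6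
  have h7 : mean p (fun c : (Σ k : Fin r, Fin (d k)) → ZMod p => ∏ k, tt (blk k c) ^ m k) =
      ∏ k, (M (1 - 1 / (p : ℝ)) p (m k) / √(p : ℝ) ^ m k) := by
    rw [mean_blocks (fun k c => tt c ^ m k)]
    exact prod_congr rfl fun k _ => mean_tt hp2 (hm k)
  have h8 : |mean p (fun c : (Σ k : Fin r, Fin (d k)) → ZMod p => ∏ k, tt (blk k c) ^ m k) -
      mean p (G1 (d := d) m p)| ≤ K * ∑ k, ((d k : ℝ) / p) := by
    classical
    rw [← mean_sub]
    refine (mean_abs _).trans ?_
    refine (mean_mono (G := fun c => K * ∑ k, if (mpoly (blk k c)).Separable then (0 : ℝ) else 1)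
      fun c => ?_).trans ?_
    · unfold G1
      rw [dif_pos hp]
      have hnn : 0 ≤ ∑ k : Fin r, (if (mpoly (blk k c)).Separable then (0 : ℝ) else 1) :=
        sum_nonneg fun k _ => by split_ifs <;> norm_num
      by_cases h9 : ∀ k, (mpoly (blk k c)).Separable
      · rw [if_pos ⟨hp2, h9⟩, sub_self, abs_zero]
        positivity
      · rw [if_neg (fun h => h9 h.2), sub_zero]
        have h10 : |∏ k, tt (blk k c) ^ m k| ≤ K := by
          rw [abs_prod]
          refine prod_le_prod (fun k _ => abs_nonneg _) fun k _ => ?_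
          rw [abs_pow]
          exact pow_le_pow_left₀ (abs_nonneg _) (weil (hd k) hp2 _) _
        have h11 : 1 ≤ ∑ k : Fin r, (if (mpoly (blk k c)).Separable then (0 : ℝ) else 1) := by
          push Not at h9
          obtain ⟨k, hk⟩ := h9
          have h12 := single_le_sum (f := fun k : Fin r =>
            (if (mpoly (blk k c)).Separable then (0 : ℝ) else 1)) (s := univ)
            (fun k _ => by split_ifs <;> norm_num) (mem_univ k)
          simp only [if_neg hk] at h12
          exact h12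
        nlinarith
    · rw [mean_const_mul, mean_finset_sum]
      exact mul_le_mul_of_nonneg_left (sum_le_sum fun k _ => mean_insep k) hK0
  rw [h7] at h8
  have h9 : K * ∑ k, ((d k : ℝ) / p) < ε / 2 := by
    have := le_abs_self (K * ∑ k, ((d k : ℝ) / p) - 0)
    linarith
  have h10 := abs_sub_le (mean p (G1 (d := d) m p))
    (∏ k, (M (1 - 1 / (p : ℝ)) p (m k) / √(p : ℝ) ^ m k)) (∏ k, gm (m k))
  rw [abs_sub_comm (mean p (G1 (d := d) m p)) (∏ k, (M (1 - 1 / (p : ℝ)) p (m k) / √(p : ℝ) ^ m k))]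
    at h10
  linarith

end

end Pool.Agent.Q14.ST
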