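import Pool.Agent.Q14.ST.Box

/-!
# All scales simultaneously
-/

set_option autoImplicit false

namespace Pool.Agent.Q14.ST

open Finset

variable {ι : Type} [Fintype ι] [DecidableEq ι]

/-- the deviation along the first `j` primes of a sequence -/
noncomputable def dev (G : (p : ℕ) → (ι → ZMod p) → ℝ) (P : ℕ → ℕ) (n : ι → ℤ) (j : ℕ) : ℝ :=
  ∑ i ∈ range j, (G (P i) (red (P i) n) - mean (P i) (G (P i)))

lemma dev_diff {G : (p : ℕ) → (ι → ZMod p) → ℝ} {K : ℝ} {P : ℕ → ℕ}
    (hK : ∀ p : ℕ, p.Prime → ∀ r, |G p r| ≤ K) (n : ι → ℤ) {j j' J : ℕ} (hj : j' ≤ j) (hJ : j ≤ J)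
    (hP : ∀ i < J, (P i).Prime) : |dev G P n j - dev G P n j'| ≤ 2 * K * ((j : ℝ) - j') := by
  have e : dev G P n j - dev G P n j' =
      ∑ i ∈ Ico j' j, (G (P i) (red (P i) n) - mean (P i) (G (P i))) := by
    unfold dev
    rw [sum_Ico_eq_sub _ hj]
  rw [e]
  refine (abs_sum_le_sum_abs _ _).trans ?_
  refine (sum_le_sum (g := fun _ => 2 * K) fun i hi => ?_).trans (le_of_eq ?_)
  · rw [mem_Ico] at hi
    have hp := hP i (by omega)
    haveI : NeZero (P i) := ⟨hp.ne_zero⟩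
    have h1 := hK (P i) hp (red (P i) n)
    have h2 := abs_mean_le (hK (P i) hp)
    have := abs_sub (G (P i) (red (P i) n)) (mean (P i) (G (P i)))
    linarith
  · rw [sum_const, nsmul_eq_mul, Nat.card_Ico, Nat.cast_sub hj]
    ring

/-- one scale -/
lemma one_scale {G : (p : ℕ) → (ι → ZMod p) → ℝ} {K ε : ℝ} {P : ℕ → ℕ} (hK0 : 0 ≤ K) (hε : 0 < ε)
    (hK : ∀ p : ℕ, p.Prime → ∀ r, |G p r| ≤ K) {M Q X : ℕ} (hM : 0 < M)
    (hP : ∀ i < M, (P i).Prime ∧ P i ≤ Q) (hinj : Set.InjOn P (Set.Iio M))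
    (hQX : Q ^ 2 ≤ X) (hX : 0 < X) (A : ι → ℤ) (S : Finset (ι → ℤ)) (hS : S ⊆ box A X)
    (hS' : ∀ n ∈ S, ε * M < |dev G P n M|) :
    (S.card : ℝ) ≤ 4 * K ^ 2 / ε ^ 2 * (X : ℝ) ^ Fintype.card ι *
      (1 / M + 2 ^ Fintype.card ι * ((Q : ℝ) ^ 2 / X)) := by
  have hM0 : (0 : ℝ) < M := by exact_mod_cast hM
  have hinj' : Set.InjOn P ((range M : Finset ℕ) : Set ℕ) := by
    intro a ha b hb hab
    rw [mem_coe, mem_range] at ha hb
    exact hinj ha hb hab
  have h := second_moment (P := (range M).image P) (by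
    intro p hp
    rw [mem_image] at hp
    obtain ⟨i, hi, rfl⟩ := hp
    exact (hP i (mem_range.1 hi)).1) (Q := Q) (by
    intro p hp
    rw [mem_image] at hp
    obtain ⟨i, hi, rfl⟩ := hp
    exact (hP i (mem_range.1 hi)).2) hQX hX A G hK0 (by
    intro p hp
    rw [mem_image] at hp
    obtain ⟨i, hi, rfl⟩ := hp
    exact hK _ (hP i (mem_range.1 hi)).1)
  rw [card_image_of_injOn hinj', card_range] at h
  have h1 : ∀ n : ι → ℤ, ∑ p ∈ (range M).image P, (G p (red p n) - mean p (G p)) = dev G P n M := by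
    intro n
    rw [sum_image hinj']
    rfl
  simp only [h1] at h
  have h2 : (S.card : ℝ) * (ε * M) ^ 2 ≤ ∑ n ∈ box A X, (dev G P n M) ^ 2 := by
    rw [← nsmul_eq_mul, ← sum_const]
    refine (sum_le_sum fun n hn => ?_).trans
      (sum_le_sum_of_subset_of_nonneg hS fun n _ _ => sq_nonneg _)
    rw [← sq_abs (dev G P n M)]
    exact pow_le_pow_left₀ (by positivity) (hS' n hn).le 2
  have h3 := h2.trans h
  have h4 : (S.card : ℝ) * (ε * M) ^ 2 ≤ (4 * K ^ 2 / ε ^ 2 * (X : ℝ) ^ Fintype.card ι *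
      (1 / M + 2 ^ Fintype.card ι * ((Q : ℝ) ^ 2 / X))) * (ε * M) ^ 2 := by
    refine h3.trans (le_of_eq ?_)
    field_simp
  exact le_of_mul_le_mul_right h4 (by positivity)

open Classical in
/-- **All scales simultaneously**, along an arbitrary sequence of primes. -/
theorem scales {K ε : ℝ} (hK0 : 0 ≤ K) (hε : 0 < ε) :
    ∃ C : ℝ, 0 ≤ C ∧ ∀ G : (p : ℕ) → (ι → ZMod p) → ℝ, (∀ p : ℕ, p.Prime → ∀ r, |G p r| ≤ K) →
      ∀ (X L J Q : ℕ) (A : ι → ℤ) (P : ℕ → ℕ), 2 ≤ X → 1 ≤ L →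
        (∀ i < J, (P i).Prime ∧ P i ≤ Q) → Set.InjOn P (Set.Iio J) →
        ((((box A X).filter fun n => ∃ j, L ≤ j ∧ j ≤ J ∧ ε * j < |dev G P n j|).card : ℕ) : ℝ) ≤
          C * Real.log X * (1 / L + (Q : ℝ) ^ 2 / X) * (X : ℝ) ^ Fintype.card ι := by
  set N := Fintype.card ι with hN
  set η : ℝ := ε / (8 * (K + ε)) with hη
  have hη0 : 0 < η := by positivity
  have hη8 : η ≤ 1 / 8 := by
    rw [hη, div_le_div_iff₀ (by positivity) (by norm_num)]
    linarith
  have hKη : 4 * K * η ≤ ε / 2 := by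
    rw [hη, mul_div_assoc', div_le_div_iff₀ (by positivity) (by norm_num)]
    nlinarith
  set ρ : ℝ := 1 + η with hρ
  have hρ1 : 1 < ρ := by linarith
  have hlρ : 0 < Real.log ρ := Real.log_pos hρ1
  have hl2 : 0 < Real.log 2 := Real.log_pos (by norm_num)
  set D : ℝ := 4 * K ^ 2 / (ε / 2) ^ 2 * 2 ^ (N + 1) with hD
  have hD0 : 0 ≤ D := by positivity
  refine ⟨1 / (η * Real.log 2) + 1 / Real.log 2 + D * (1 / Real.log ρ + 1 / Real.log 2),
    by positivity, ?_⟩
  set C₁ : ℝ := 1 / (η * Real.log 2) with hC₁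
  set C₂ : ℝ := 1 / Real.log 2 with hC₂
  set C₃ : ℝ := D * (1 / Real.log ρ + 1 / Real.log 2) with hC₃
  have hC₁0 : 0 ≤ C₁ := by positivity
  have hC₂0 : 0 ≤ C₂ := by positivity
  have hC₃0 : 0 ≤ C₃ := by positivity
  intro G hG X L J Q A P hX hL hP hinj
  have hX0 : (0 : ℝ) < X := by exact_mod_cast (by omega : 0 < X)
  have hX2 : (2 : ℝ) ≤ X := by exact_mod_cast hX
  have hL0 : (0 : ℝ) < L := by exact_mod_cast hL
  have hlX : Real.log 2 ≤ Real.log X := Real.log_le_log (by norm_num) hX2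
  have hlX0 : 0 < Real.log X := by linarith
  have hXN : 0 < (X : ℝ) ^ N := by positivity
  set S := (box A X).filter fun n => ∃ j, L ≤ j ∧ j ≤ J ∧ ε * j < |dev G P n j| with hS
  have htriv : (S.card : ℝ) ≤ (X : ℝ) ^ N := by
    have h1 : S.card ≤ (box A X).card := card_filter_le _ _
    rw [box_card] at h1
    exact_mod_cast h1
  set T : ℝ := 1 / L + (Q : ℝ) ^ 2 / X with hT
  have hT0 : 0 ≤ T := by positivity
  have hT1 : 1 / (L : ℝ) ≤ T := by
    have : 0 ≤ (Q : ℝ) ^ 2 / X := by positivity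
    linarith
  have hT2 : (Q : ℝ) ^ 2 / X ≤ T := by
    have : 0 ≤ 1 / (L : ℝ) := by positivity
    linarith
  -- the trivial cases
  by_cases hLη : (L : ℝ) < 1 / η
  · have h1 : η ≤ 1 / L := by
      rw [lt_div_iff₀ hη0] at hLη
      rw [le_div_iff₀ hL0]
      linarith
    have h2 : 1 ≤ (C₁ + C₂ + C₃) * Real.log X * T := by
      have h3 : 1 ≤ C₁ * Real.log X * T := by
        calc (1 : ℝ) = C₁ * Real.log 2 * η := by
              rw [hC₁]
              field_simp
          _ ≤ C₁ * Real.log X * T := by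
              refine mul_le_mul ?_ (h1.trans hT1) hη0.le (by positivity)
              exact mul_le_mul_of_nonneg_left hlX hC₁0
      have h4 : 0 ≤ (C₂ + C₃) * Real.log X * T := by positivity
      linarith [show (C₁ + C₂ + C₃) * Real.log X * T = C₁ * Real.log X * T +
        (C₂ + C₃) * Real.log X * T by ring]
    calc (S.card : ℝ) ≤ 1 * (X : ℝ) ^ N := by rw [one_mul]; exact htriv
      _ ≤ _ := mul_le_mul_of_nonneg_right h2 hXN.le
  push Not at hLη
  by_cases hQX : X < Q ^ 2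
  · have h1 : 1 ≤ T := by
      refine le_trans ?_ hT2
      rw [le_div_iff₀ hX0, one_mul]
      exact_mod_cast hQX.le
    have h2 : 1 ≤ (C₁ + C₂ + C₃) * Real.log X * T := by
      have h3 : 1 ≤ C₂ * Real.log X * T := by
        calc (1 : ℝ) = C₂ * Real.log 2 * 1 := by
              rw [hC₂]
              field_simp
          _ ≤ C₂ * Real.log X * T := by
              refine mul_le_mul ?_ h1 zero_le_one (by positivity)
              exact mul_le_mul_of_nonneg_left hlX hC₂0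
      have h4 : 0 ≤ (C₁ + C₃) * Real.log X * T := by positivity
      linarith [show (C₁ + C₂ + C₃) * Real.log X * T = C₂ * Real.log X * T +
        (C₁ + C₃) * Real.log X * T by ring]
    calc (S.card : ℝ) ≤ 1 * (X : ℝ) ^ N := by rw [one_mul]; exact htriv
      _ ≤ _ := mul_le_mul_of_nonneg_right h2 hXN.le
  push Not at hQX
  have hJQ : J ≤ Q := by
    have h1 : ((range J).image P).card ≤ (Icc 1 Q).card := by
      refine card_le_card ?_
      intro p hp
      rw [mem_image] at hp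
      obtain ⟨i, hi, rfl⟩ := hp
      have := hP i (mem_range.1 hi)
      rw [mem_Icc]
      exact ⟨this.1.pos, this.2⟩
    rw [card_image_of_injOn (by
      intro a ha b hb hab
      rw [mem_coe, mem_range] at ha hb
      exact hinj ha hb hab), card_range, Nat.card_Icc] at h1
    omega
  have hJX : J ≤ X := by
    refine hJQ.trans (le_trans ?_ hQX)
    nlinarith [Nat.zero_le Q]
  set jj : ℕ → ℕ := fun k => ⌊ρ ^ k⌋₊ with hjj
  set R : Finset ℕ := (range (⌊Real.log X / Real.log ρ⌋₊ + 1)).filter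
    fun k => jj k ≤ J ∧ (L : ℝ) / 2 ≤ jj k with hR
  set Sk : ℕ → Finset (ι → ℤ) := fun k => S.filter fun n => ε / 2 * (jj k) < |dev G P n (jj k)|
    with hSk
  have hcover : S ⊆ R.biUnion Sk := by
    intro n hn
    have hn' := hn
    rw [hS, mem_filter] at hn'
    obtain ⟨-, j, hj1, hj2, hj3⟩ := hn'
    have hj0 : (0 : ℝ) < j := by exact_mod_cast (by omega : 0 < j)
    have hjL : (L : ℝ) ≤ j := by exact_mod_cast hj1
    have hj1' : (1 : ℝ) ≤ j := by exact_mod_cast (by omega : 1 ≤ j)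
    have hlj : 0 ≤ Real.log j := Real.log_nonneg hj1'
    set k : ℕ := ⌊Real.log j / Real.log ρ⌋₊ with hk
    have hρ0 : 0 < ρ := by linarith
    have hk1 : ρ ^ k ≤ j := by
      have h1 : (k : ℝ) ≤ Real.log j / Real.log ρ := Nat.floor_le (by positivity)
      rw [le_div_iff₀ hlρ, ← Real.log_pow] at h1
      exact (Real.log_le_log_iff (by positivity) hj0).1 h1
    have hk2 : (j : ℝ) < ρ ^ (k + 1) := by
      have h1 : Real.log j / Real.log ρ < k + 1 := Nat.lt_floor_add_one _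
      rw [div_lt_iff₀ hlρ] at h1
      have h2 : Real.log j < Real.log (ρ ^ (k + 1)) := by
        rw [Real.log_pow]
        push_cast
        exact h1
      exact (Real.log_lt_log_iff hj0 (by positivity)).1 h2
    have hjk : jj k ≤ j := by
      have : ⌊ρ ^ k⌋₊ ≤ ⌊(j : ℝ)⌋₊ := Nat.floor_le_floor hk1
      rwa [Nat.floor_natCast] at this
    have hjk2 : ρ ^ k < (jj k : ℝ) + 1 := Nat.lt_floor_add_one _
    have hgap : (j : ℝ) - jj k ≤ 2 * η * j := by
      have h1 : (j : ℝ) < ρ * ((jj k : ℝ) + 1) := by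
        calc (j : ℝ) < ρ ^ (k + 1) := hk2
          _ = ρ * ρ ^ k := by rw [pow_succ]; ring
          _ ≤ _ := mul_le_mul_of_nonneg_left hjk2.le hρ0.le
      have h2 : 1 ≤ η * j := by
        have := hLη.trans hjL
        rw [div_le_iff₀ hη0] at this
        linarith
      have h3 : (jj k : ℝ) ≤ j := by exact_mod_cast hjk
      have h4 : (j : ℝ) - jj k < η * (jj k) + ρ := by
        rw [hρ] at h1 ⊢
        nlinarith
      have h5 : η * (jj k : ℝ) ≤ η * j := mul_le_mul_of_nonneg_left h3 hη0.le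
      rcases hjk.lt_or_eq with hlt | heq
      · -- use the sharper bound
        have h6 : (j : ℝ) < (jj k : ℝ) + 1 + η * ((jj k : ℝ) + 1) := by
          rw [hρ] at h1
          nlinarith
        have h7 : (jj k : ℝ) + 1 ≤ j := by exact_mod_cast hlt
        have h8 : η * ((jj k : ℝ) + 1) ≤ η * j := mul_le_mul_of_nonneg_left h7 hη0.le
        linarith
      · rw [heq, sub_self]
        positivity
    have hjhalf : (L : ℝ) / 2 ≤ jj k := by
      have : 2 * η * j ≤ 2 * (1 / 8) * j := by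
        have := mul_le_mul_of_nonneg_right hη8 hj0.le
        linarith
      linarith
    have hd := dev_diff (P := P) hG n hjk hj2 (fun i hi => (hP i hi).1)
    have hd2 : 2 * K * ((j : ℝ) - jj k) ≤ ε / 2 * j := by
      calc 2 * K * ((j : ℝ) - jj k) ≤ 2 * K * (2 * η * j) :=
            mul_le_mul_of_nonneg_left hgap (by positivity)
        _ = 4 * K * η * j := by ring
        _ ≤ _ := mul_le_mul_of_nonneg_right hKη hj0.le
    have hmain : ε / 2 * (jj k) < |dev G P n (jj k)| := by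
      have h1 : |dev G P n j| ≤ |dev G P n (jj k)| + |dev G P n j - dev G P n (jj k)| := by
        have := abs_add_le (dev G P n (jj k)) (dev G P n j - dev G P n (jj k))
        rwa [add_sub_cancel] at this
      have h3 : (jj k : ℝ) ≤ j := by exact_mod_cast hjk
      have h4 : ε / 2 * (jj k) ≤ ε / 2 * j := mul_le_mul_of_nonneg_left h3 (by positivity)
      linarith
    rw [mem_biUnion]
    refine ⟨k, ?_, ?_⟩
    · rw [hR, mem_filter, mem_range]
      refine ⟨?_, hjk.trans hj2, hjhalf⟩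
      have h1 : (j : ℝ) ≤ X := by exact_mod_cast hj2.trans hJX
      have h2 : k ≤ ⌊Real.log X / Real.log ρ⌋₊ := by
        refine Nat.floor_le_floor ?_
        exact div_le_div_of_nonneg_right (Real.log_le_log hj0 h1) hlρ.le
      omega
    · rw [hSk, mem_filter]
      exact ⟨hn, hmain⟩
  have hterm : ∀ k ∈ R, ((Sk k).card : ℝ) ≤ D * T * (X : ℝ) ^ N := by
    intro k hk
    rw [hR, mem_filter] at hk
    obtain ⟨-, hk1, hk2⟩ := hk
    have hM0 : (0 : ℝ) < jj k := lt_of_lt_of_le (by positivity) hk2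
    have hM : 0 < jj k := by exact_mod_cast hM0
    have h1 := one_scale (G := G) (P := P) hK0 (show 0 < ε / 2 by positivity) hG hM
      (fun i hi => hP i (by omega)) (fun a ha b hb hab => hinj
        (lt_of_lt_of_le (Set.mem_Iio.1 ha) hk1) (lt_of_lt_of_le (Set.mem_Iio.1 hb) hk1) hab)
      hQX (by omega) A (Sk k) (by
        refine (filter_subset _ _).trans ?_
        rw [hS]
        exact filter_subset _ _) (by
        intro n hn
        rw [hSk, mem_filter] at hn
        exact hn.2)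
    refine h1.trans ?_
    have h2 : 1 / (jj k : ℝ) ≤ 2 * (1 / L) := by
      rw [mul_one_div, div_le_div_iff₀ hM0 hL0]
      linarith
    have h3 : 1 / (jj k : ℝ) + 2 ^ N * ((Q : ℝ) ^ 2 / X) ≤ 2 ^ (N + 1) * T := by
      have h4 : (1 : ℝ) ≤ 2 ^ N := one_le_pow₀ (by norm_num)
      have h5 : 0 ≤ 1 / (L : ℝ) := by positivity
      have h6 : 0 ≤ (Q : ℝ) ^ 2 / X := by positivity
      have h7 : ∀ a b q t : ℝ, a ≤ 2 * b → 0 ≤ b → 0 ≤ q → 1 ≤ t → a + t * q ≤ t * 2 * (b + q) := by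
        intro a b q t h1 h2 h3 h4
        have k1 := mul_nonneg (show 0 ≤ t - 1 by linarith) h2
        have k2 := mul_nonneg (show 0 ≤ t by linarith) h3
        nlinarith
      rw [hT, pow_succ]
      exact h7 _ _ _ _ h2 h5 h6 h4
    calc 4 * K ^ 2 / (ε / 2) ^ 2 * (X : ℝ) ^ N * (1 / (jj k : ℝ) + 2 ^ N * ((Q : ℝ) ^ 2 / X)) ≤
          4 * K ^ 2 / (ε / 2) ^ 2 * (X : ℝ) ^ N * (2 ^ (N + 1) * T) :=
            mul_le_mul_of_nonneg_left h3 (by positivity)
      _ = _ := by rw [hD]; ring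
  have hRc : (R.card : ℝ) ≤ Real.log X * (1 / Real.log ρ + 1 / Real.log 2) := by
    have h1 : R.card ≤ ⌊Real.log X / Real.log ρ⌋₊ + 1 := by
      refine (card_filter_le _ _).trans ?_
      rw [card_range]
    have h2 : (R.card : ℝ) ≤ (⌊Real.log X / Real.log ρ⌋₊ : ℝ) + 1 := by exact_mod_cast h1
    have h3 : (⌊Real.log X / Real.log ρ⌋₊ : ℝ) ≤ Real.log X / Real.log ρ :=
      Nat.floor_le (by positivity)
    have h4 : 1 ≤ Real.log X * (1 / Real.log 2) := by
      rw [mul_one_div, le_div_iff₀ hl2, one_mul]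
      exact hlX
    rw [mul_add, mul_one_div]
    linarith
  calc (S.card : ℝ) ≤ ((R.biUnion Sk).card : ℝ) := by exact_mod_cast card_le_card hcover
    _ ≤ ∑ k ∈ R, ((Sk k).card : ℝ) := by exact_mod_cast card_biUnion_le
    _ ≤ ∑ _k ∈ R, D * T * (X : ℝ) ^ N := sum_le_sum hterm
    _ = R.card * (D * T * (X : ℝ) ^ N) := by rw [sum_const, nsmul_eq_mul]
    _ ≤ (Real.log X * (1 / Real.log ρ + 1 / Real.log 2)) * (D * T * (X : ℝ) ^ N) :=
        mul_le_mul_of_nonneg_right hRc (by positivity)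
    _ = C₃ * Real.log X * T * (X : ℝ) ^ N := by rw [hC₃]; ring
    _ ≤ (C₁ + C₂ + C₃) * Real.log X * T * (X : ℝ) ^ N := by
        refine mul_le_mul_of_nonneg_right ?_ hXN.le
        refine mul_le_mul_of_nonneg_right ?_ hT0
        refine mul_le_mul_of_nonneg_right ?_ hlX0.le
        linarith

end Pool.Agent.Q14.ST
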