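import Mathlib

/-!
# Periodic functions on boxes, the second moment, all scales
-/

set_option autoImplicit false

namespace Pool.Agent.Q14.ST

open Finset

variable {ι : Type} [Fintype ι] [DecidableEq ι]

/-- the box with corner `A` and side `X` -/
noncomputable def box (A : ι → ℤ) (X : ℕ) : Finset (ι → ℤ) :=
  Fintype.piFinset fun i => Ico (A i) (A i + X)

/-- the reduction modulo `m` -/
def red (m : ℕ) (n : ι → ℤ) : ι → ZMod m := fun i => (n i : ZMod m)

omit [DecidableEq ι] in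
lemma red_apply (m : ℕ) (n : ι → ℤ) (i : ι) : red m n i = (n i : ZMod m) := rfl

lemma box_card (A : ι → ℤ) (X : ℕ) : (box A X).card = X ^ Fintype.card ι := by
  rw [box, Fintype.card_piFinset]
  simp

lemma count_one {m : ℕ} (hm : 0 < m) (a : ℤ) (X : ℕ) (r : ZMod m) :
    |((((Ico a (a + X)).filter fun x : ℤ => (x : ZMod m) = r).card : ℕ) : ℝ) - (X : ℝ) / m| ≤ 1 := by
  have : NeZero m := ⟨hm.ne'⟩
  have hm0 : (0 : ℝ) < m := by exact_mod_cast hm
  have e : ((Ico a (a + X)).filter fun x : ℤ => (x : ZMod m) = r) =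
      (Ico a (a + X)).filter fun x : ℤ => x ≡ (r.val : ℤ) [ZMOD (m : ℤ)] := by
    refine filter_congr fun x _ => ?_
    rw [← ZMod.intCast_eq_intCast_iff]
    push_cast
    rw [ZMod.natCast_zmod_val]
  rw [e]
  have h := Int.Ico_filter_modEq_card a (a + X) (r := (m : ℤ)) (by exact_mod_cast hm) (r.val : ℤ)
  have h1 : (((((Ico a (a + X)).filter fun x : ℤ => x ≡ (r.val : ℤ) [ZMOD (m : ℤ)]).card : ℕ) : ℤ) : ℝ) =
      ((max (⌈(((a + X : ℤ) : ℚ) - ((r.val : ℤ) : ℚ)) / ((m : ℤ) : ℚ)⌉ -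
        ⌈((a : ℚ) - ((r.val : ℤ) : ℚ)) / ((m : ℤ) : ℚ)⌉) 0 : ℤ) : ℝ) := by
    rw [h]
  push_cast at h1
  rw [h1]
  have hmQ : (0 : ℚ) < m := by exact_mod_cast hm
  have hdiff : ((a : ℚ) + X - (r.val : ℚ)) / m = ((a : ℚ) - (r.val : ℚ)) / m + (X : ℚ) / m := by
    field_simp
    ring
  set u : ℚ := ((a : ℚ) - (r.val : ℚ)) / m with hu
  set w : ℚ := ((a : ℚ) + X - (r.val : ℚ)) / m with hw
  have c1 := Int.ceil_lt_add_one u
  have c2 := Int.le_ceil u
  have c3 := Int.ceil_lt_add_one w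
  have c4 := Int.le_ceil w
  have hXm : (0 : ℚ) ≤ (X : ℚ) / m := by positivity
  have hmono : ⌈u⌉ ≤ ⌈w⌉ := Int.ceil_mono (by rw [hdiff]; linarith)
  have hmono' : (0 : ℝ) ≤ (⌈w⌉ : ℝ) - ⌈u⌉ := by
    have : (⌈u⌉ : ℝ) ≤ ⌈w⌉ := by exact_mod_cast hmono
    linarith
  rw [max_eq_left hmono']
  have k1 : ((⌈w⌉ : ℚ) - ⌈u⌉) - (X : ℚ) / m < 1 := by linarith
  have k2 : -1 < ((⌈w⌉ : ℚ) - ⌈u⌉) - (X : ℚ) / m := by linarith
  have k1' : ((((⌈w⌉ : ℚ) - ⌈u⌉) - (X : ℚ) / m : ℚ) : ℝ) < ((1 : ℚ) : ℝ) := by exact_mod_cast k1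
  have k2' : (((-1 : ℚ)) : ℝ) < ((((⌈w⌉ : ℚ) - ⌈u⌉) - (X : ℚ) / m : ℚ) : ℝ) := by exact_mod_cast k2
  push_cast at k1' k2'
  rw [abs_le]
  constructor <;> linarith

omit [DecidableEq ι] in
lemma prod_near {t : ℝ} (ht : 0 ≤ t) (c : ι → ℝ) (hc : ∀ i, |c i - t| ≤ 1) (s : Finset ι) :
    |∏ i ∈ s, c i - t ^ s.card| ≤ (t + 1) ^ s.card - t ^ s.card := by
  classical
  induction s using Finset.induction_on with
  | empty => simp
  | insert a s ha ih =>
    rw [prod_insert ha, card_insert_of_notMem ha, pow_succ, pow_succ]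
    have h1 : c a * ∏ i ∈ s, c i - t ^ s.card * t =
        (∏ i ∈ s, c i - t ^ s.card) * c a + t ^ s.card * (c a - t) := by ring
    rw [h1]
    have h2 := hc a
    have h3 : |c a| ≤ t + 1 := by
      have := abs_le.1 h2
      rw [abs_le]
      constructor <;> linarith
    have h4 : 0 ≤ t ^ s.card := pow_nonneg ht _
    calc _ ≤ |(∏ i ∈ s, c i - t ^ s.card) * c a| + |t ^ s.card * (c a - t)| := abs_add_le _ _
      _ = |∏ i ∈ s, c i - t ^ s.card| * |c a| + t ^ s.card * |c a - t| := by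
          rw [abs_mul, abs_mul, abs_of_nonneg h4]
      _ ≤ ((t + 1) ^ s.card - t ^ s.card) * (t + 1) + t ^ s.card * 1 := by
          have h5 : 0 ≤ (t + 1) ^ s.card - t ^ s.card := (abs_nonneg _).trans ih
          exact add_le_add (mul_le_mul ih h3 (abs_nonneg _) h5) (mul_le_mul_of_nonneg_left h2 h4)
      _ = _ := by ring

lemma fiber_card {m : ℕ} (A : ι → ℤ) (X : ℕ) (r : ι → ZMod m) :
    ((box A X).filter fun n => red m n = r).card =
      ∏ i, ((Ico (A i) (A i + X)).filter fun x : ℤ => (x : ZMod m) = r i).card := by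
  rw [← Fintype.card_piFinset]
  congr 1
  ext n
  simp only [box, mem_filter, Fintype.mem_piFinset, funext_iff, red_apply]
  constructor
  · rintro ⟨h1, h2⟩ i
    exact ⟨h1 i, h2 i⟩
  · intro h
    exact ⟨fun i => (h i).1, fun i => (h i).2⟩

/-- the sum of a periodic function with mean zero over a box -/
lemma sum_box {m : ℕ} (hm : 0 < m) (A : ι → ℤ) (X : ℕ) (F : (ι → ZMod m) → ℝ) {L : ℝ}
    (hL : ∀ r, |F r| ≤ L) (h0 : haveI : NeZero m := ⟨hm.ne'⟩; ∑ r, F r = 0) :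
    |∑ n ∈ box A X, F (red m n)| ≤
      L * (((X : ℝ) + m) ^ Fintype.card ι - (X : ℝ) ^ Fintype.card ι) := by
  have : NeZero m := ⟨hm.ne'⟩
  have hm0 : (0 : ℝ) < m := by exact_mod_cast hm
  set N := Fintype.card ι with hN
  have h1 : ∑ n ∈ box A X, F (red m n) =
      ∑ r : ι → ZMod m, F r * ((((box A X).filter fun n => red m n = r).card : ℕ) : ℝ) := by
    rw [← sum_fiberwise (box A X) (red m) (fun n => F (red m n))]
    refine sum_congr rfl fun r _ => ?_
    rw [sum_congr rfl (g := fun _ => F r) (by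
      intro n hn
      rw [mem_filter] at hn
      rw [hn.2]), sum_const, nsmul_eq_mul, mul_comm]
  have h2 : ∑ n ∈ box A X, F (red m n) =
      ∑ r : ι → ZMod m, F r * (((((box A X).filter fun n => red m n = r).card : ℕ) : ℝ) -
        ((X : ℝ) / m) ^ N) := by
    rw [h1]
    simp only [mul_sub, sum_sub_distrib]
    rw [← sum_mul]
    have : ∑ r : ι → ZMod m, F r = 0 := h0
    rw [this, zero_mul, sub_zero]
  rw [h2]
  have h3 : ∀ r : ι → ZMod m, |((((box A X).filter fun n => red m n = r).card : ℕ) : ℝ) -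
      ((X : ℝ) / m) ^ N| ≤ ((X : ℝ) / m + 1) ^ N - ((X : ℝ) / m) ^ N := by
    intro r
    rw [fiber_card]
    push_cast
    have := prod_near (t := (X : ℝ) / m) (by positivity)
      (fun i => ((((Ico (A i) (A i + X)).filter fun x : ℤ => (x : ZMod m) = r i).card : ℕ) : ℝ))
      (fun i => count_one hm (A i) X (r i)) (univ : Finset ι)
    rwa [card_univ, ← hN] at this
  have hL0 : 0 ≤ L := (abs_nonneg _).trans (hL 0)
  calc |∑ r : ι → ZMod m, F r * (((((box A X).filter fun n => red m n = r).card : ℕ) : ℝ) -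
        ((X : ℝ) / m) ^ N)| ≤ ∑ r : ι → ZMod m, |F r * (((((box A X).filter
          fun n => red m n = r).card : ℕ) : ℝ) - ((X : ℝ) / m) ^ N)| := abs_sum_le_sum_abs _ _
    _ ≤ ∑ _r : ι → ZMod m, L * (((X : ℝ) / m + 1) ^ N - ((X : ℝ) / m) ^ N) := by
        refine sum_le_sum fun r _ => ?_
        rw [abs_mul]
        exact mul_le_mul (hL r) (h3 r) (abs_nonneg _) hL0
    _ = (m : ℝ) ^ N * (L * (((X : ℝ) / m + 1) ^ N - ((X : ℝ) / m) ^ N)) := by
        rw [sum_const, nsmul_eq_mul, card_univ, Fintype.card_fun, ZMod.card]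
        push_cast
        rfl
    _ = L * ((m * ((X : ℝ) / m + 1)) ^ N - (m * ((X : ℝ) / m)) ^ N) := by
        rw [mul_pow, mul_pow]
        ring
    _ = L * (((X : ℝ) + m) ^ N - (X : ℝ) ^ N) := by
        have e1 : (m : ℝ) * ((X : ℝ) / m + 1) = X + m := by field_simp
        have e2 : (m : ℝ) * ((X : ℝ) / m) = X := by field_simp
        rw [e1, e2]

lemma pow_diff (N : ℕ) {t : ℝ} (h0 : 0 ≤ t) (h1 : t ≤ 1) : (1 + t) ^ N - 1 ≤ (2 ^ N - 1) * t := by
  induction N with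
  | zero => simp
  | succ N ih =>
    have h2 : (1 : ℝ) ≤ 2 ^ N := one_le_pow₀ (by norm_num)
    have h3 : (1 + t) ^ (N + 1) - 1 = (1 + t) * ((1 + t) ^ N - 1) + t := by ring
    rw [h3]
    calc (1 + t) * ((1 + t) ^ N - 1) + t ≤ (1 + t) * ((2 ^ N - 1) * t) + t := by
          have := mul_le_mul_of_nonneg_left ih (show 0 ≤ 1 + t by linarith)
          linarith
      _ ≤ 2 * ((2 ^ N - 1) * t) + t := by
          have h4 : 0 ≤ (2 ^ N - 1) * t := mul_nonneg (by linarith) h0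
          nlinarith
      _ = _ := by ring

lemma pow_diff' (N : ℕ) {X m : ℕ} (hX : 0 < X) (hm : m ≤ X) :
    ((X : ℝ) + m) ^ N - (X : ℝ) ^ N ≤ 2 ^ N * ((m : ℝ) / X) * (X : ℝ) ^ N := by
  have hX0 : (0 : ℝ) < X := by exact_mod_cast hX
  have hmX : (m : ℝ) / X ≤ 1 := by
    rw [div_le_one hX0]
    exact_mod_cast hm
  have hmX0 : 0 ≤ (m : ℝ) / X := by positivity
  have h := pow_diff N hmX0 hmX
  have e : ((X : ℝ) + m) ^ N = (X : ℝ) ^ N * (1 + (m : ℝ) / X) ^ N := by
    rw [← mul_pow]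
    congr 1
    field_simp
  rw [e]
  calc (X : ℝ) ^ N * (1 + (m : ℝ) / X) ^ N - (X : ℝ) ^ N =
        (X : ℝ) ^ N * ((1 + (m : ℝ) / X) ^ N - 1) := by ring
    _ ≤ (X : ℝ) ^ N * ((2 ^ N - 1) * ((m : ℝ) / X)) := mul_le_mul_of_nonneg_left h (by positivity)
    _ ≤ (X : ℝ) ^ N * (2 ^ N * ((m : ℝ) / X)) := by
        refine mul_le_mul_of_nonneg_left ?_ (by positivity)
        exact mul_le_mul_of_nonneg_right (by linarith) hmX0
    _ = _ := by ring

/-- the mean of a function modulo `p` -/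
noncomputable def mean (p : ℕ) (F : (ι → ZMod p) → ℝ) : ℝ :=
  (∑ᶠ r, F r) / (p : ℝ) ^ Fintype.card ι

lemma mean_eq {p : ℕ} [NeZero p] (F : (ι → ZMod p) → ℝ) :
    mean p F = (∑ r, F r) / (p : ℝ) ^ Fintype.card ι := by
  rw [mean, finsum_eq_sum_of_fintype]

lemma sum_sub_mean {p : ℕ} [NeZero p] (F : (ι → ZMod p) → ℝ) : ∑ r, (F r - mean p F) = 0 := by
  classical
  have hp0 : (p : ℝ) ≠ 0 := by exact_mod_cast NeZero.ne p
  rw [sum_sub_distrib, sum_const, nsmul_eq_mul, card_univ, Fintype.card_fun, ZMod.card, mean_eq]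
  push_cast
  field_simp
  ring

lemma abs_mean_le {p : ℕ} [NeZero p] {F : (ι → ZMod p) → ℝ} {K : ℝ} (hK : ∀ r, |F r| ≤ K) :
    |mean p F| ≤ K := by
  classical
  have hp0 : (0 : ℝ) < (p : ℝ) ^ Fintype.card ι := by
    have : (0 : ℝ) < p := by exact_mod_cast (NeZero.pos p)
    positivity
  rw [mean_eq, abs_div, abs_of_pos hp0, div_le_iff₀ hp0]
  refine (abs_sum_le_sum_abs _ _).trans ?_
  refine (sum_le_sum fun r _ => hK r).trans (le_of_eq ?_)
  rw [sum_const, nsmul_eq_mul, card_univ, Fintype.card_fun, ZMod.card]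
  push_cast
  ring

/-- independence modulo different primes -/
lemma cov_zero {p q : ℕ} (hp : p.Prime) (hq : q.Prime) (hpq : p ≠ q) (F : (ι → ZMod p) → ℝ)
    (G : (ι → ZMod q) → ℝ)
    (hF : haveI : NeZero p := ⟨hp.ne_zero⟩; ∑ r, F r = 0) :
    haveI : NeZero (p * q) := ⟨mul_ne_zero hp.ne_zero hq.ne_zero⟩
    ∑ r : ι → ZMod (p * q), F (fun i => (r i).cast) * G (fun i => (r i).cast) = 0 := by
  haveI : NeZero p := ⟨hp.ne_zero⟩
  haveI : NeZero q := ⟨hq.ne_zero⟩
  haveI : NeZero (p * q) := ⟨mul_ne_zero hp.ne_zero hq.ne_zero⟩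
  have hcop : Nat.Coprime p q := (Nat.coprime_primes hp hq).2 hpq
  let e := ZMod.chineseRemainder hcop
  let E : (ι → ZMod (p * q)) ≃ (ι → ZMod p) × (ι → ZMod q) :=
    (Equiv.arrowCongr (Equiv.refl ι) e.toEquiv).trans (Equiv.arrowProdEquivProdArrow ι _ _)
  have h1 : ∑ r : ι → ZMod (p * q), F (fun i => (r i).cast) * G (fun i => (r i).cast) =
      ∑ x : (ι → ZMod p) × (ι → ZMod q), F x.1 * G x.2 := by
    refine Fintype.sum_equiv E _ _ fun r => ?_
    have e1 : (E r).1 = fun i => (r i).cast := by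
      funext i
      change (ZMod.cast (r i) : ZMod p × ZMod q).1 = _
      rw [Prod.fst_zmod_cast]
    have e2 : (E r).2 = fun i => (r i).cast := by
      funext i
      change (ZMod.cast (r i) : ZMod p × ZMod q).2 = _
      rw [Prod.snd_zmod_cast]
    rw [e1, e2]
  rw [h1, Fintype.sum_prod_type]
  simp only [← mul_sum]
  rw [← sum_mul]
  have : ∑ r, F r = 0 := hF
  rw [this, zero_mul]

/-- the second moment -/
lemma second_moment {P : Finset ℕ} (hP : ∀ p ∈ P, p.Prime) {Q X : ℕ} (hQ : ∀ p ∈ P, p ≤ Q)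
    (hQX : Q ^ 2 ≤ X) (hX : 0 < X) (A : ι → ℤ) (G : (p : ℕ) → (ι → ZMod p) → ℝ) {K : ℝ} (hK0 : 0 ≤ K)
    (hK : ∀ p ∈ P, ∀ r, |G p r| ≤ K) :
    ∑ n ∈ box A X, (∑ p ∈ P, (G p (red p n) - mean p (G p))) ^ 2 ≤
      4 * K ^ 2 * (X : ℝ) ^ Fintype.card ι * (P.card + 2 ^ Fintype.card ι * ((Q : ℝ) ^ 2 / X) *
        (P.card : ℝ) ^ 2) := by
  set N := Fintype.card ι with hN
  have hX0 : (0 : ℝ) < X := by exact_mod_cast hX
  set H : (p : ℕ) → (ι → ZMod p) → ℝ := fun p r => G p r - mean p (G p) with hH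
  have hH2 : ∀ p ∈ P, ∀ r, |H p r| ≤ 2 * K := by
    intro p hp r
    haveI : NeZero p := ⟨(hP p hp).ne_zero⟩
    have h1 := hK p hp r
    have h2 := abs_mean_le (hK p hp)
    rw [hH]
    simp only
    have := abs_sub (G p r) (mean p (G p))
    linarith
  have hexp : ∑ n ∈ box A X, (∑ p ∈ P, (G p (red p n) - mean p (G p))) ^ 2 =
      ∑ p ∈ P, ∑ q ∈ P, ∑ n ∈ box A X, H p (red p n) * H q (red q n) := by
    have : ∀ n : ι → ℤ, (∑ p ∈ P, (G p (red p n) - mean p (G p))) ^ 2 =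
        ∑ p ∈ P, ∑ q ∈ P, H p (red p n) * H q (red q n) := by
      intro n
      rw [sq, sum_mul_sum]
    simp only [this]
    rw [sum_comm]
    refine sum_congr rfl fun p _ => ?_
    rw [sum_comm]
  rw [hexp]
  have hdiag : ∀ p ∈ P, |∑ n ∈ box A X, H p (red p n) * H p (red p n)| ≤ 4 * K ^ 2 * (X : ℝ) ^ N := by
    intro p hp
    refine (abs_sum_le_sum_abs _ _).trans ?_
    refine (sum_le_sum (g := fun _ => 4 * K ^ 2) fun n _ => ?_).trans (le_of_eq ?_)
    · rw [abs_mul]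
      have h1 := hH2 p hp (red p n)
      have h2 := mul_le_mul h1 h1 (abs_nonneg _) (by positivity)
      linarith
    · rw [sum_const, nsmul_eq_mul, box_card]
      push_cast
      ring
  have hoff : ∀ p ∈ P, ∀ q ∈ P, p ≠ q → |∑ n ∈ box A X, H p (red p n) * H q (red q n)| ≤
      4 * K ^ 2 * (2 ^ N * ((Q : ℝ) ^ 2 / X) * (X : ℝ) ^ N) := by
    intro p hp q hq hpq
    haveI : NeZero p := ⟨(hP p hp).ne_zero⟩
    haveI : NeZero q := ⟨(hP q hq).ne_zero⟩
    haveI : NeZero (p * q) := ⟨mul_ne_zero (hP p hp).ne_zero (hP q hq).ne_zero⟩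
    have hpq0 : 0 < p * q := Nat.pos_of_ne_zero (NeZero.ne _)
    have hpqQ : p * q ≤ Q ^ 2 := by
      rw [sq]
      exact Nat.mul_le_mul (hQ p hp) (hQ q hq)
    have h0 := cov_zero (ι := ι) (hP p hp) (hP q hq) hpq (H p) (H q) (sum_sub_mean (G p))
    have hb : ∀ r : ι → ZMod (p * q),
        |H p (fun i => (r i).cast) * H q (fun i => (r i).cast)| ≤ 4 * K ^ 2 := by
      intro r
      rw [abs_mul]
      have h1 := hH2 p hp (fun i => (r i).cast)
      have h2 := hH2 q hq (fun i => (r i).cast)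
      have h3 := mul_le_mul h1 h2 (abs_nonneg _) (by positivity)
      linarith
    have h1 := sum_box hpq0 A X (fun r : ι → ZMod (p * q) =>
      H p (fun i => (r i).cast) * H q (fun i => (r i).cast)) hb h0
    have h2 : ∀ n : ι → ℤ, H p (red p n) * H q (red q n) =
        H p (fun i => ((red (p * q) n) i).cast) * H q (fun i => ((red (p * q) n) i).cast) := by
      intro n
      have e1 : (fun i => ((red (p * q) n) i).cast : ι → ZMod p) = red p n := by
        funext i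
        rw [red_apply, red_apply, ZMod.cast_intCast (Dvd.intro _ rfl)]
      have e2 : (fun i => ((red (p * q) n) i).cast : ι → ZMod q) = red q n := by
        funext i
        rw [red_apply, red_apply, ZMod.cast_intCast (Dvd.intro_left _ rfl)]
      rw [e1, e2]
    simp only [h2]
    refine h1.trans ?_
    refine mul_le_mul_of_nonneg_left ?_ (by positivity)
    refine (pow_diff' N hX (hpqQ.trans hQX)).trans ?_
    refine mul_le_mul_of_nonneg_right ?_ (by positivity)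
    refine mul_le_mul_of_nonneg_left ?_ (by positivity)
    refine div_le_div_of_nonneg_right ?_ hX0.le
    exact_mod_cast hpqQ
  calc ∑ p ∈ P, ∑ q ∈ P, ∑ n ∈ box A X, H p (red p n) * H q (red q n) ≤
        ∑ p ∈ P, ∑ q ∈ P, ((if p = q then 4 * K ^ 2 * (X : ℝ) ^ N else 0) +
          4 * K ^ 2 * (2 ^ N * ((Q : ℝ) ^ 2 / X) * (X : ℝ) ^ N)) := by
        refine sum_le_sum fun p hp => sum_le_sum fun q hq => ?_
        have hnn : 0 ≤ 4 * K ^ 2 * (2 ^ N * ((Q : ℝ) ^ 2 / X) * (X : ℝ) ^ N) := by positivity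
        by_cases hpq : p = q
        · subst hpq
          rw [if_pos rfl]
          have := (le_abs_self _).trans (hdiag p hp)
          linarith
        · rw [if_neg hpq, zero_add]
          exact (le_abs_self _).trans (hoff p hp q hq hpq)
    _ = _ := by
        simp only [sum_add_distrib, sum_ite_eq, sum_const, nsmul_eq_mul]
        rw [sum_congr rfl (g := fun _ => 4 * K ^ 2 * (X : ℝ) ^ N) (by
          intro p hp
          rw [if_pos hp]), sum_const, nsmul_eq_mul]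
        ring

end Pool.Agent.Q14.ST
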