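import Pool.Agent.Q14.ST.Scales
import Pool.Agent.Q14.ST.Sep

/-!
# The moments for almost all members of the box
-/

set_option autoImplicit false

namespace Pool.Agent.Q14.ST

open Finset Polynomial

variable {r : ℕ} {d : Fin r → ℕ}

/-- sums of means along a sequence of primes -/
lemma sum_means (hd : ∀ k, Odd (d k)) (m : Fin r → ℕ) (hm : ∀ k, m k ≤ d k) {ε : ℝ} (hε : 0 < ε) :
    ∃ L₀ : ℝ, 0 ≤ L₀ ∧ ∀ (P : ℕ → ℕ) (J j : ℕ), (∀ i < J, (P i).Prime) → Set.InjOn P (Set.Iio J) →
      j ≤ J → L₀ ≤ j → |∑ i ∈ range j, mean (P i) (G1 (d := d) m (P i)) - (∏ k, gm (m k)) * j| ≤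
        2 * ε * j := by
  obtain ⟨P₀, hP₀⟩ := mean_G1 hd m hm hε
  set K : ℝ := ∏ k, (d k : ℝ) ^ m k with hK
  have hK0 : 0 ≤ K := prod_nonneg fun k _ => by positivity
  set c : ℝ := ∏ k, gm (m k) with hc
  refine ⟨(K + |c|) * P₀ / ε, by positivity, fun P J j hP hinj hj hL => ?_⟩
  have h1 : ∑ i ∈ range j, mean (P i) (G1 (d := d) m (P i)) - c * j =
      ∑ i ∈ range j, (mean (P i) (G1 (d := d) m (P i)) - c) := by
    rw [sum_sub_distrib, sum_const, card_range, nsmul_eq_mul, mul_comm]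
  rw [h1]
  refine (abs_sum_le_sum_abs _ _).trans ?_
  have h2 : ∀ i ∈ range j, |mean (P i) (G1 (d := d) m (P i)) - c| ≤
      ε + (if P i < P₀ then K + |c| else 0) := by
    intro i hi
    rw [mem_range] at hi
    have hp := hP i (by omega)
    split_ifs with h
    · haveI : NeZero (P i) := ⟨hp.ne_zero⟩
      have h3 := abs_mean_le (G1_bound hd m (P i))
      have h4 := abs_sub (mean (P i) (G1 (d := d) m (P i))) c
      linarith
    · have := hP₀ (P i) hp (by omega)
      linarith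
  refine (sum_le_sum h2).trans ?_
  rw [sum_add_distrib, sum_const, card_range, nsmul_eq_mul, ← sum_filter, sum_const, nsmul_eq_mul]
  have h3 : ((range j).filter fun i => P i < P₀).card ≤ P₀ := by
    have h4 : (((range j).filter fun i => P i < P₀).image P).card ≤ (range P₀).card := by
      refine card_le_card fun x hx => ?_
      rw [mem_image] at hx
      obtain ⟨i, hi, rfl⟩ := hx
      rw [mem_filter] at hi
      exact mem_range.2 hi.2
    rw [card_image_of_injOn (by
      intro a ha b hb hab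
      rw [mem_coe, mem_filter, mem_range] at ha hb
      exact hinj (lt_of_lt_of_le ha.1 hj) (lt_of_lt_of_le hb.1 hj) hab), card_range] at h4
    exact h4
  have h4 : ((((range j).filter fun i => P i < P₀).card : ℕ) : ℝ) ≤ P₀ := by exact_mod_cast h3
  have h5 : (K + |c|) * P₀ ≤ ε * j := by
    rw [div_le_iff₀ hε] at hL
    linarith
  have h6 : ((((range j).filter fun i => P i < P₀).card : ℕ) : ℝ) * (K + |c|) ≤ P₀ * (K + |c|) :=
    mul_le_mul_of_nonneg_right h4 (by positivity)
  linarith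

/-- the sum over the first `j` primes -/
noncomputable def S1 (m : Fin r → ℕ) (P : ℕ → ℕ) (n : (Σ k : Fin r, Fin (d k)) → ℤ) (j : ℕ) : ℝ :=
  ∑ i ∈ range j, G1 m (P i) (red (P i) n)

open Classical in
/-- **The moments at all scales for almost all members.** -/
theorem main (hd : ∀ k, Odd (d k)) (m : Fin r → ℕ) (hm : ∀ k, m k ≤ d k) {ε : ℝ} (hε : 0 < ε) :
    ∃ C : ℝ, 0 ≤ C ∧ ∀ (X L J Q : ℕ) (A : (Σ k : Fin r, Fin (d k)) → ℤ) (P : ℕ → ℕ), 2 ≤ X → 1 ≤ L →
        (∀ i < J, (P i).Prime ∧ P i ≤ Q) → Set.InjOn P (Set.Iio J) →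
        ((((box A X).filter fun n => ∃ j, L ≤ j ∧ j ≤ J ∧
            ε < |S1 m P n j / S1 (d := d) (fun _ => 0) P n j - ∏ k, gm (m k)|).card : ℕ) : ℝ) ≤
          C * Real.log X * (1 / L + (Q : ℝ) ^ 2 / X) *
            (X : ℝ) ^ Fintype.card (Σ k : Fin r, Fin (d k)) := by
  set N := Fintype.card (Σ k : Fin r, Fin (d k)) with hN
  set c : ℝ := ∏ k, gm (m k) with hc
  set e : ℝ := min (1 / 4) (ε / (12 * (1 + |c|))) with he
  have he0 : 0 < e := lt_min (by norm_num) (by positivity)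
  have he4 : e ≤ 1 / 4 := min_le_left _ _
  have hec : 12 * e * (1 + |c|) ≤ ε := by
    have h1 : e ≤ ε / (12 * (1 + |c|)) := min_le_right _ _
    rw [le_div_iff₀ (by positivity)] at h1
    linarith
  obtain ⟨L₁, hL₁0, hL₁⟩ := sum_means hd m hm he0
  obtain ⟨L₂, hL₂0, hL₂⟩ := sum_means hd (fun _ => 0) (fun k => Nat.zero_le _) he0
  obtain ⟨C₁, hC₁0, hC₁⟩ := scales (ι := Σ k : Fin r, Fin (d k))
    (K := ∏ k, (d k : ℝ) ^ m k) (ε := e) (prod_nonneg fun k _ => by positivity) he0
  obtain ⟨C₂, hC₂0, hC₂⟩ := scales (ι := Σ k : Fin r, Fin (d k))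
    (K := ∏ k, (d k : ℝ) ^ (0 : ℕ)) (ε := e) (prod_nonneg fun k _ => by positivity) he0
  have hl2 : 0 < Real.log 2 := Real.log_pos (by norm_num)
  set C₀ : ℝ := (L₁ + L₂) / Real.log 2 with hC₀
  have hC₀0 : 0 ≤ C₀ := by positivity
  refine ⟨C₀ + C₁ + C₂, by positivity, fun X L J Q A P hX hL hP hinj => ?_⟩
  have hX0 : (0 : ℝ) < X := by exact_mod_cast (by omega : 0 < X)
  have hX2 : (2 : ℝ) ≤ X := by exact_mod_cast hX
  have hL0 : (0 : ℝ) < L := by exact_mod_cast hL
  have hlX : Real.log 2 ≤ Real.log X := Real.log_le_log (by norm_num) hX2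
  have hlX0 : 0 < Real.log X := by linarith
  have hXN : 0 < (X : ℝ) ^ N := by positivity
  set T : ℝ := 1 / L + (Q : ℝ) ^ 2 / X with hT
  have hT0 : 0 ≤ T := by positivity
  have hT1 : 1 / (L : ℝ) ≤ T := by
    have : 0 ≤ (Q : ℝ) ^ 2 / X := by positivity
    linarith
  set S := (box A X).filter fun n => ∃ j, L ≤ j ∧ j ≤ J ∧
    ε < |S1 m P n j / S1 (d := d) (fun _ => 0) P n j - c| with hS
  have htriv : (S.card : ℝ) ≤ (X : ℝ) ^ N := by
    have h1 : S.card ≤ (box A X).card := card_filter_le _ _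
    rw [box_card] at h1
    exact_mod_cast h1
  by_cases hLL : (L : ℝ) < L₁ + L₂
  · have h1 : 1 ≤ (C₀ + C₁ + C₂) * Real.log X * T := by
      have h3 : 1 ≤ C₀ * Real.log X * T := by
        calc (1 : ℝ) ≤ (L₁ + L₂) * (1 / L) := by
              rw [mul_one_div, le_div_iff₀ hL0, one_mul]
              exact hLL.le
          _ = C₀ * Real.log 2 * (1 / L) := by
              rw [hC₀]
              field_simp
          _ ≤ C₀ * Real.log X * T := by
              refine mul_le_mul ?_ hT1 (by positivity) (by positivity)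
              exact mul_le_mul_of_nonneg_left hlX hC₀0
      have h4 : 0 ≤ (C₁ + C₂) * Real.log X * T := by positivity
      linarith [show (C₀ + C₁ + C₂) * Real.log X * T = C₀ * Real.log X * T +
        (C₁ + C₂) * Real.log X * T by ring]
    calc (S.card : ℝ) ≤ 1 * (X : ℝ) ^ N := by rw [one_mul]; exact htriv
      _ ≤ _ := mul_le_mul_of_nonneg_right h1 hXN.le
  push Not at hLL
  have h1 := hC₁ (G1 (d := d) m) (fun p _ => G1_bound hd m p) X L J Q A P hX hL hP hinj
  have h2 := hC₂ (G1 (d := d) (fun _ => 0)) (fun p _ => G1_bound hd (fun _ => 0) p) X L J Q A P hX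
    hL hP hinj
  have hsub : S ⊆ ((box A X).filter fun n => ∃ j, L ≤ j ∧ j ≤ J ∧
      e * j < |dev (G1 (d := d) m) P n j|) ∪ ((box A X).filter fun n => ∃ j, L ≤ j ∧ j ≤ J ∧
      e * j < |dev (G1 (d := d) (fun _ => 0)) P n j|) := by
    intro n hn
    rw [hS, mem_filter] at hn
    obtain ⟨hn1, j, hj1, hj2, hj3⟩ := hn
    rw [mem_union, mem_filter, mem_filter]
    by_contra hcon
    push Not at hcon
    obtain ⟨g1, g2⟩ := hcon
    have g1' := g1 hn1 j hj1 hj2
    have g2' := g2 hn1 j hj1 hj2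
    have hjL : (L : ℝ) ≤ j := by exact_mod_cast hj1
    have hj0 : (0 : ℝ) < j := by linarith
    have k1 := hL₁ P J j (fun i hi => (hP i hi).1) hinj hj2 (by linarith)
    have k2 := hL₂ P J j (fun i hi => (hP i hi).1) hinj hj2 (by linarith)
    have hone : ∏ _k : Fin r, gm 0 = 1 := by
      rw [prod_eq_one]
      intro k _
      rw [gm]
    rw [hone] at k2
    have e1 : dev (G1 (d := d) m) P n j = S1 m P n j -
        ∑ i ∈ range j, mean (P i) (G1 (d := d) m (P i)) := by
      unfold dev S1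
      rw [sum_sub_distrib]
    have e2 : dev (G1 (d := d) (fun _ => 0)) P n j = S1 (fun _ => 0) P n j -
        ∑ i ∈ range j, mean (P i) (G1 (d := d) (fun _ => 0) (P i)) := by
      unfold dev S1
      rw [sum_sub_distrib]
    rw [e1] at g1'
    rw [e2] at g2'
    set s := S1 m P n j with hs
    set I := S1 (d := d) (fun _ => 0) P n j with hI
    have a1 : |s - c * j| ≤ 3 * e * j := by
      have := abs_sub_le s (∑ i ∈ range j, mean (P i) (G1 (d := d) m (P i))) (c * j)
      linarith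
    have a2 : |I - 1 * j| ≤ 3 * e * j := by
      have := abs_sub_le I (∑ i ∈ range j, mean (P i) (G1 (d := d) (fun _ => 0) (P i))) (1 * j)
      linarith
    rw [one_mul] at a2
    have hIpos : (j : ℝ) / 4 ≤ I := by
      have h3 := (abs_le.1 a2).1
      have h4 : 3 * e * j ≤ 3 / 4 * j := by
        have := mul_le_mul_of_nonneg_right he4 hj0.le
        linarith
      linarith
    have hI0 : 0 < I := by linarith
    have a3 : |s - c * I| ≤ 3 * e * j * (1 + |c|) := by
      have h3 : s - c * I = (s - c * j) - c * (I - j) := by ring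
      rw [h3]
      have h4 := abs_sub (s - c * j) (c * (I - j))
      rw [abs_mul] at h4
      have h5 : |c| * |I - j| ≤ |c| * (3 * e * j) := mul_le_mul_of_nonneg_left a2 (abs_nonneg _)
      nlinarith
    have a4 : |s / I - c| ≤ ε := by
      have h3 : s / I - c = (s - c * I) / I := by field_simp
      rw [h3, abs_div, abs_of_pos hI0, div_le_iff₀ hI0]
      calc |s - c * I| ≤ 3 * e * j * (1 + |c|) := a3
        _ = (12 * e * (1 + |c|)) * (j / 4) := by ring
        _ ≤ ε * (j / 4) := mul_le_mul_of_nonneg_right hec (by positivity)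
        _ ≤ ε * I := mul_le_mul_of_nonneg_left hIpos hε.le
    linarith
  have hcard : (S.card : ℝ) ≤ ((((box A X).filter fun n => ∃ j, L ≤ j ∧ j ≤ J ∧
      e * j < |dev (G1 (d := d) m) P n j|).card : ℕ) : ℝ) +
      ((((box A X).filter fun n => ∃ j, L ≤ j ∧ j ≤ J ∧
      e * j < |dev (G1 (d := d) (fun _ => 0)) P n j|).card : ℕ) : ℝ) := by
    exact_mod_cast (card_le_card hsub).trans (card_union_le _ _)
  calc (S.card : ℝ) ≤ _ := hcard
    _ ≤ C₁ * Real.log X * T * (X : ℝ) ^ N + C₂ * Real.log X * T * (X : ℝ) ^ N := add_le_add h1 h2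
    _ ≤ (C₀ + C₁ + C₂) * Real.log X * T * (X : ℝ) ^ N := by
        have : 0 ≤ C₀ * Real.log X * T * (X : ℝ) ^ N := by positivity
        linarith [show (C₀ + C₁ + C₂) * Real.log X * T * (X : ℝ) ^ N =
          C₀ * Real.log X * T * (X : ℝ) ^ N + (C₁ * Real.log X * T * (X : ℝ) ^ N +
          C₂ * Real.log X * T * (X : ℝ) ^ N) by ring]

end Pool.Agent.Q14.ST
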