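import Pool.Agent.Q14.ST.Box
import Pool.Agent.H341R2.WeilSharp

/-!
# The moments of the character sums of a random monic polynomial
-/

set_option autoImplicit false

namespace Pool.Agent.Q14.ST

open Finset Polynomial

section

variable {p : ℕ} [Fact p.Prime] {d : ℕ}

/-- the value of the monic polynomial with the lower coefficients `c` -/
def ev (c : Fin d → ZMod p) (x : ZMod p) : ZMod p := x ^ d + ∑ i, c i * x ^ (i : ℕ)

/-- the monic polynomial with the lower coefficients `c` -/
noncomputable def mpoly {R : Type} [CommRing R] (c : Fin d → R) : R[X] :=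
  X ^ d + ∑ i, C (c i) * X ^ (i : ℕ)

lemma eval_mpoly (c : Fin d → ZMod p) (x : ZMod p) : (mpoly c).eval x = ev c x := by
  simp [mpoly, ev, eval_finsetSum]

lemma mpoly_low {R : Type} [CommRing R] [Nontrivial R] (c : Fin d → R) :
    (∑ i, C (c i) * X ^ (i : ℕ) : R[X]).degree < d := by
  exact degree_sum_fin_lt c

lemma mpoly_monic {R : Type} [CommRing R] [Nontrivial R] (c : Fin d → R) : (mpoly c).Monic :=
  monic_X_pow_add (mpoly_low c)

lemma mpoly_natDegree {R : Type} [CommRing R] [Nontrivial R] (c : Fin d → R) :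
    (mpoly c).natDegree = d := by
  have h : (mpoly c).degree = (X ^ d : R[X]).degree :=
    degree_add_eq_left_of_degree_lt (by rw [degree_X_pow]; exact mpoly_low c)
  rw [degree_X_pow] at h
  exact natDegree_eq_of_degree_eq_some h

/-- shifting the value at one point -/
lemma key {T : Finset (ZMod p)} {a : ZMod p} (ha : a ∉ T) (hT : T.card + 1 ≤ d) (ψ : ZMod p → ℝ)
    (φ : (Fin d → ZMod p) → ℝ) (hφ : ∀ c c', (∀ z ∈ T, ev c z = ev c' z) → φ c = φ c') :
    (p : ℝ) * ∑ c : Fin d → ZMod p, ψ (ev c a) * φ c = (∑ u, ψ u) * ∑ c : Fin d → ZMod p, φ c := by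
  set w : (ZMod p)[X] := ∏ z ∈ T, (X - C z) with hw
  have hwd : w.natDegree = T.card := natDegree_finsetProd_X_sub_C_eq_card T (fun z => z)
  have hwa : w.eval a ≠ 0 := by
    rw [hw, eval_prod, prod_ne_zero_iff]
    intro z hz
    rw [eval_sub, eval_X, eval_C, sub_ne_zero]
    rintro rfl
    exact ha hz
  have hwT : ∀ z ∈ T, w.eval z = 0 := by
    intro z hz
    rw [hw, eval_prod]
    refine prod_eq_zero hz ?_
    simp
  set W : Fin d → ZMod p := fun i => w.coeff i with hW
  have hev : ∀ (t : ZMod p) (c : Fin d → ZMod p) (x : ZMod p),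
      ev (fun i => c i + t * W i) x = ev c x + t * w.eval x := by
    intro t c x
    have h1 : w.eval x = ∑ i : Fin d, W i * x ^ (i : ℕ) := by
      rw [eval_eq_sum_range' (n := d) (by omega), Fin.sum_univ_eq_sum_range
        (fun i => w.coeff i * x ^ i) d]
    unfold ev
    rw [h1, mul_sum, add_assoc, ← sum_add_distrib]
    congr 1
    refine sum_congr rfl fun i _ => ?_
    ring
  have hshift : ∀ t : ZMod p, ∑ c : Fin d → ZMod p, ψ (ev c a) * φ c =
      ∑ c : Fin d → ZMod p, ψ (ev c a + t * w.eval a) * φ c := by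
    intro t
    symm
    refine Fintype.sum_equiv (Equiv.addRight (fun i => t * W i)) _ _ fun c => ?_
    have e1 : (Equiv.addRight (fun i => t * W i)) c = fun i => c i + t * W i := rfl
    rw [e1, hev]
    congr 1
    refine hφ _ _ fun z hz => ?_
    rw [hev, hwT z hz]
    ring
  have hsum : ∑ _t : ZMod p, ∑ c : Fin d → ZMod p, ψ (ev c a) * φ c =
      ∑ c : Fin d → ZMod p, (∑ u, ψ u) * φ c := by
    rw [sum_congr rfl (fun t _ => hshift t), sum_comm]
    refine sum_congr rfl fun c _ => ?_
    rw [← sum_mul]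
    congr 1
    refine Fintype.sum_bijective (fun t => ev c a + t * w.eval a) ?_ _ _ fun t => rfl
    refine (Finite.injective_iff_bijective).1 ?_
    intro t t' h
    exact mul_right_cancel₀ hwa (add_left_cancel h)
  rw [sum_const, card_univ, ZMod.card, nsmul_eq_mul] at hsum
  rw [hsum, mul_sum]

/-- the character sum over the points of `T` -/
noncomputable def cs (T : Finset (ZMod p)) (c : Fin d → ZMod p) : ℝ :=
  ∑ x ∈ T, (quadraticChar (ZMod p) (ev c x) : ℝ)

lemma key' {T : Finset (ZMod p)} {a : ZMod p} (ha : a ∉ T) {l : ℕ} (hl : l + 1 ≤ d)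
    (ψ : ZMod p → ℝ) :
    (p : ℝ) * ∑ c : Fin d → ZMod p, ψ (ev c a) * cs T c ^ l =
      (∑ u, ψ u) * ∑ c : Fin d → ZMod p, cs T c ^ l := by
  classical
  have h1 : ∀ c : Fin d → ZMod p, cs T c ^ l =
      ∑ x ∈ Fintype.piFinset fun _ : Fin l => T, ∏ j, (quadraticChar (ZMod p) (ev c (x j)) : ℝ) :=
    fun c => sum_pow' T _ l
  simp only [h1, mul_sum]
  rw [sum_comm]
  have e2 : ∑ c : Fin d → ZMod p, ∑ x ∈ Fintype.piFinset fun _ : Fin l => T,
      (∑ u, ψ u) * ∏ j, (quadraticChar (ZMod p) (ev c (x j)) : ℝ) =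
      ∑ x ∈ Fintype.piFinset fun _ : Fin l => T, ∑ c : Fin d → ZMod p,
      (∑ u, ψ u) * ∏ j, (quadraticChar (ZMod p) (ev c (x j)) : ℝ) := sum_comm
  rw [e2]
  refine sum_congr rfl fun x hx => ?_
  rw [Fintype.mem_piFinset] at hx
  simp only [← mul_sum]
  refine key (T := univ.image x) ?_ ?_ ψ _ ?_
  · intro h
    rw [mem_image] at h
    obtain ⟨j, -, rfl⟩ := h
    exact ha (hx j)
  · have : (univ.image x).card ≤ (univ : Finset (Fin l)).card := card_image_le
    rw [card_univ, Fintype.card_fin] at this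
    omega
  · intro c c' h
    refine prod_congr rfl fun j _ => ?_
    rw [h (x j) (mem_image_of_mem x (mem_univ j))]

/-- the moments of a sum of `n` independent variables which are `1`, `-1` with probability `v / 2` -/
noncomputable def M (v : ℝ) : ℕ → ℕ → ℝ
  | _, 0 => 1
  | n, l + 1 => n * ∑ k : Fin (l + 1), (l.choose k : ℝ) * (if Odd (k : ℕ) then v else 0) *
      M v (n - 1) (l - k)
termination_by _ l => l

lemma sum_char_pow (hp : p ≠ 2) {j : ℕ} (hj : 0 < j) :
    ∑ u : ZMod p, (quadraticChar (ZMod p) u : ℝ) ^ j = if Even j then (p : ℝ) - 1 else 0 := by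
  have hp' : ringChar (ZMod p) ≠ 2 := by rwa [ZMod.ringChar_zmod_n]
  split_ifs with h
  · have h1 : ∀ u : ZMod p, (quadraticChar (ZMod p) u : ℝ) ^ j = if u = 0 then 0 else 1 := by
      intro u
      split_ifs with hu
      · rw [hu, quadraticChar_zero]
        simp [hj.ne']
      · obtain ⟨i, rfl⟩ := h
        rcases quadraticChar_dichotomy hu with h2 | h2
        · rw [h2]; simp
        · rw [h2, ← two_mul, pow_mul]; simp
    simp only [h1]
    rw [← sum_filter_ne_zero]
    have h2 : ∑ u : ZMod p, (if u = 0 then (0 : ℝ) else 1) = (p : ℝ) - 1 := by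
      have h3 : ∀ u : ZMod p, (if u = 0 then (0 : ℝ) else 1) = 1 - if u = 0 then 1 else 0 := by
        intro u
        split_ifs <;> simp
      simp only [h3]
      rw [sum_sub_distrib, sum_const, card_univ, ZMod.card, sum_ite_eq' univ (0 : ZMod p)]
      simp
    rw [sum_filter_ne_zero, h2]
  · have h1 : ∀ u : ZMod p, (quadraticChar (ZMod p) u : ℝ) ^ j = (quadraticChar (ZMod p) u : ℝ) := by
      intro u
      by_cases hu : u = 0
      · rw [hu, quadraticChar_zero]
        simp [hj.ne']
      · have ho : Odd j := Nat.not_even_iff_odd.1 h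
        rcases quadraticChar_dichotomy hu with h2 | h2
        · rw [h2]; simp
        · rw [h2]; push_cast; rw [ho.neg_one_pow]
    simp only [h1]
    have h2 := quadraticChar_sum_zero hp'
    exact_mod_cast h2

/-- the moments of the character sums -/
lemma moment (hp : p ≠ 2) (l : ℕ) : l ≤ d → ∀ T : Finset (ZMod p),
    ∑ c : Fin d → ZMod p, cs T c ^ l = (p : ℝ) ^ d * M (1 - 1 / p) T.card l := by
  have hp0 : (0 : ℝ) < p := by exact_mod_cast (Fact.out : p.Prime).pos
  induction l using Nat.strong_induction_on with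
  | _ l ih =>
    intro hl T
    cases l with
    | zero =>
      simp only [pow_zero, sum_const, card_univ, Fintype.card_fun, ZMod.card, Fintype.card_fin]
      rw [M]
      simp
    | succ l =>
      have h1 : ∀ c : Fin d → ZMod p, cs T c ^ (l + 1) =
          ∑ x ∈ T, ∑ k ∈ range (l + 1), (l.choose k : ℝ) *
            ((quadraticChar (ZMod p) (ev c x) : ℝ) ^ (k + 1) * cs (T.erase x) c ^ (l - k)) := by
        intro c
        rw [pow_succ']
        nth_rewrite 1 [cs]
        rw [sum_mul]
        refine sum_congr rfl fun x hx => ?_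
        have h2 : cs T c = (quadraticChar (ZMod p) (ev c x) : ℝ) + cs (T.erase x) c := by
          unfold cs
          exact (add_sum_erase T (fun x => (quadraticChar (ZMod p) (ev c x) : ℝ)) hx).symm
        rw [h2, add_pow, mul_sum]
        refine sum_congr rfl fun k _ => ?_
        ring
      simp only [h1]
      rw [sum_comm]
      have h3 : ∀ x ∈ T, ∑ c : Fin d → ZMod p, ∑ k ∈ range (l + 1), (l.choose k : ℝ) *
            ((quadraticChar (ZMod p) (ev c x) : ℝ) ^ (k + 1) * cs (T.erase x) c ^ (l - k)) =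
          (p : ℝ) ^ d * ∑ k : Fin (l + 1), (l.choose k : ℝ) *
            (if Odd (k : ℕ) then (1 - 1 / (p : ℝ)) else 0) * M (1 - 1 / p) (T.card - 1) (l - k) := by
        intro x hx
        rw [sum_comm, Fin.sum_univ_eq_sum_range (fun k => (l.choose k : ℝ) *
            (if Odd k then (1 - 1 / (p : ℝ)) else 0) * M (1 - 1 / p) (T.card - 1) (l - k)) (l + 1),
          mul_sum]
        refine sum_congr rfl fun k hk => ?_
        rw [mem_range] at hk
        rw [← mul_sum]
        have h4 := key' (d := d) (T := T.erase x) (a := x) (notMem_erase x T) (l := l - k) (by omega)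
          (fun u => (quadraticChar (ZMod p) u : ℝ) ^ (k + 1))
        rw [sum_char_pow hp (Nat.succ_pos k), ih (l - k) (by omega) (by omega) (T.erase x),
          card_erase_of_mem hx] at h4
        have h5 : (if Even (k + 1) then (p : ℝ) - 1 else 0) =
            p * (if Odd k then (1 - 1 / (p : ℝ)) else 0) := by
          have : Even (k + 1) ↔ Odd k := by
            rw [Nat.even_add_one, Nat.not_even_iff_odd]
          by_cases hk2 : Odd k
          · rw [if_pos (this.2 hk2), if_pos hk2]
            field_simp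
          · rw [if_neg (fun h => hk2 (this.1 h)), if_neg hk2, mul_zero]
        rw [h5] at h4
        have h6 : ∑ c : Fin d → ZMod p, (quadraticChar (ZMod p) (ev c x) : ℝ) ^ (k + 1) *
            cs (T.erase x) c ^ (l - k) = (if Odd k then (1 - 1 / (p : ℝ)) else 0) *
              ((p : ℝ) ^ d * M (1 - 1 / p) (T.card - 1) (l - k)) := by
          have h7 : (p : ℝ) * ∑ c : Fin d → ZMod p, (quadraticChar (ZMod p) (ev c x) : ℝ) ^ (k + 1) *
            cs (T.erase x) c ^ (l - k) = p * ((if Odd k then (1 - 1 / (p : ℝ)) else 0) *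
              ((p : ℝ) ^ d * M (1 - 1 / p) (T.card - 1) (l - k))) := by
            rw [h4]
            ring
          exact mul_left_cancel₀ hp0.ne' h7
        rw [h6]
        ring
      rw [sum_congr rfl h3, sum_const, nsmul_eq_mul, M]
      ring

end

/-- the moments of the normal distribution -/
noncomputable def gm : ℕ → ℝ
  | 0 => 1
  | 1 => 0
  | l + 2 => (l + 1) * gm l

open Filter Topology

lemma M_tendsto (l : ℕ) : Tendsto (fun x : ℕ × ℝ => M x.2 x.1 l / (√(x.1 : ℝ)) ^ l)
    (atTop ×ˢ 𝓝 1) (𝓝 (gm l)) := by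
  induction l using Nat.strong_induction_on with
  | _ l ih =>
    cases l with
    | zero =>
      have : (fun x : ℕ × ℝ => M x.2 x.1 0 / (√(x.1 : ℝ)) ^ 0) = fun _ => 1 := by
        funext x
        rw [M]
        simp
      rw [this, gm]
      exact tendsto_const_nhds
    | succ l =>
      have hsq : Tendsto (fun x : ℕ × ℝ => √(x.1 : ℝ)) (atTop ×ˢ 𝓝 1) atTop :=
        Real.tendsto_sqrt_atTop.comp (tendsto_natCast_atTop_atTop.comp tendsto_fst)
      have hinv : Tendsto (fun x : ℕ × ℝ => (√(x.1 : ℝ))⁻¹) (atTop ×ˢ 𝓝 1) (𝓝 0) :=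
        tendsto_inv_atTop_zero.comp hsq
      have hv : Tendsto (fun x : ℕ × ℝ => x.2) (atTop ×ˢ 𝓝 (1 : ℝ)) (𝓝 1) := tendsto_snd
      have hshift : Tendsto (fun x : ℕ × ℝ => (x.1 - 1, x.2)) (atTop ×ˢ 𝓝 (1 : ℝ))
          (atTop ×ˢ 𝓝 (1 : ℝ)) := by
        refine Tendsto.prodMk ?_ tendsto_snd
        exact (tendsto_sub_atTop_nat 1).comp tendsto_fst
      have hratio : Tendsto (fun x : ℕ × ℝ => √((x.1 - 1 : ℕ) : ℝ) / √(x.1 : ℝ))
          (atTop ×ˢ 𝓝 (1 : ℝ)) (𝓝 1) := by
        have h1 : Tendsto (fun x : ℕ × ℝ => √(1 - ((x.1 : ℝ))⁻¹)) (atTop ×ˢ 𝓝 (1 : ℝ))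
            (𝓝 (√(1 - 0))) := by
          refine (Real.continuous_sqrt.tendsto _).comp ?_
          refine tendsto_const_nhds.sub ?_
          exact tendsto_inv_atTop_zero.comp (tendsto_natCast_atTop_atTop.comp tendsto_fst)
        rw [sub_zero, Real.sqrt_one] at h1
        refine h1.congr' ?_
        have h2 : ∀ᶠ x : ℕ × ℝ in atTop ×ˢ 𝓝 (1 : ℝ), 1 ≤ x.1 :=
          (tendsto_fst (f := (atTop : Filter ℕ)) (g := 𝓝 (1 : ℝ))).eventually_ge_atTop 1
        filter_upwards [h2] with x hx
        have hx0 : (0 : ℝ) < x.1 := by exact_mod_cast hx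
        rw [← Real.sqrt_div' _ hx0.le, Nat.cast_sub hx]
        congr 1
        field_simp
        simp
      have hterm : ∀ k : Fin (l + 1), Tendsto (fun x : ℕ × ℝ => (l.choose k : ℝ) *
          (if Odd (k : ℕ) then x.2 else 0) * ((M x.2 (x.1 - 1) (l - k) /
            (√((x.1 - 1 : ℕ) : ℝ)) ^ (l - (k : ℕ))) *
            (√((x.1 - 1 : ℕ) : ℝ) / √(x.1 : ℝ)) ^ (l - (k : ℕ)) * ((√(x.1 : ℝ))⁻¹) ^ ((k : ℕ) - 1)))
          (atTop ×ˢ 𝓝 1) (𝓝 (if (k : ℕ) = 1 then (l : ℝ) * gm (l - 1) else 0)) := by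
        intro k
        have hM : Tendsto (fun x : ℕ × ℝ => M x.2 (x.1 - 1) (l - k) /
            (√((x.1 - 1 : ℕ) : ℝ)) ^ (l - (k : ℕ))) (atTop ×ˢ 𝓝 1) (𝓝 (gm (l - k))) :=
          (ih (l - k) (by omega)).comp hshift
        have hR := hratio.pow (l - (k : ℕ))
        have hI := hinv.pow ((k : ℕ) - 1)
        rw [one_pow] at hR
        by_cases hk1 : (k : ℕ) = 1
        · rw [if_pos hk1]
          have ho : Odd (k : ℕ) := by rw [hk1]; exact odd_one
          simp only [if_pos ho]
          have h1 := ((tendsto_const_nhds (x := (l.choose k : ℝ))).mul hv).mul ((hM.mul hR).mul hI)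
          have h2 : ((k : ℕ) - 1) = 0 := by omega
          rw [h2, pow_zero, hk1, Nat.choose_one_right] at h1
          rw [hk1]
          simpa using h1
        · rw [if_neg hk1]
          by_cases ho : Odd (k : ℕ)
          · simp only [if_pos ho]
            have h1 := ((tendsto_const_nhds (x := (l.choose k : ℝ))).mul hv).mul ((hM.mul hR).mul hI)
            have hk2 : (k : ℕ) - 1 ≠ 0 := by
              obtain ⟨i, hi⟩ := ho
              omega
            rw [zero_pow hk2, mul_zero, mul_zero] at h1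
            exact h1
          · simp only [if_neg ho, mul_zero, zero_mul]
            exact tendsto_const_nhds
      have hsum := tendsto_finsetSum (univ : Finset (Fin (l + 1))) (fun k _ => hterm k)
      have hlim : ∑ k : Fin (l + 1), (if (k : ℕ) = 1 then (l : ℝ) * gm (l - 1) else 0) =
          gm (l + 1) := by
        rw [Fin.sum_univ_eq_sum_range (fun k => if k = 1 then (l : ℝ) * gm (l - 1) else 0) (l + 1),
          sum_ite_eq' (range (l + 1)) 1]
        cases l with
        | zero => simp [gm]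
        | succ l =>
          rw [if_pos (by rw [mem_range]; omega), gm]
          push_cast
          rfl
      rw [hlim] at hsum
      refine hsum.congr' ?_
      have h2 : ∀ᶠ x : ℕ × ℝ in atTop ×ˢ 𝓝 (1 : ℝ), 2 ≤ x.1 :=
        (tendsto_fst (f := (atTop : Filter ℕ)) (g := 𝓝 (1 : ℝ))).eventually_ge_atTop 2
      filter_upwards [h2] with x hx
      have hx0 : (0 : ℝ) < x.1 := by exact_mod_cast (by omega : 0 < x.1)
      have hs0 : √(x.1 : ℝ) ≠ 0 := (Real.sqrt_pos.2 hx0).ne'
      have hx1 : (0 : ℝ) < ((x.1 - 1 : ℕ) : ℝ) := by exact_mod_cast (by omega : 0 < x.1 - 1)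
      have hs1 : √((x.1 - 1 : ℕ) : ℝ) ≠ 0 := (Real.sqrt_pos.2 hx1).ne'
      have hss : (x.1 : ℝ) = √(x.1 : ℝ) * √(x.1 : ℝ) := (Real.mul_self_sqrt hx0.le).symm
      rw [M, mul_sum, sum_div]
      refine sum_congr rfl fun k _ => ?_
      by_cases ho : Odd (k : ℕ)
      · have hk1 : 1 ≤ (k : ℕ) := by
          obtain ⟨i, hi⟩ := ho
          omega
        have hkl : (k : ℕ) ≤ l := by omega
        have hpow : √(x.1 : ℝ) ^ (l + 1) = √(x.1 : ℝ) ^ (l - (k : ℕ)) * √(x.1 : ℝ) ^ ((k : ℕ) - 1) *
            (√(x.1 : ℝ) * √(x.1 : ℝ)) := by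
          rw [← pow_add, ← pow_two, ← pow_add]
          congr 1
          omega
        rw [hpow, ← hss, div_pow, inv_pow]
        simp only [if_pos ho]
        have hx00 : (x.1 : ℝ) ≠ 0 := hx0.ne'
        field_simp
      · simp only [if_neg ho]
        simp

end Pool.Agent.Q14.ST
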